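import Mathlib

/-!
Right orders, Conrad right orders, and the basic ways of building right orders:
from an action on a totally ordered set, and by compactness.
-/

namespace Pool.Agent.ConradOrders

universe u v

/-- `lt` is a right order on the group `G`: a strict total order with
`f < g → f * h < g * h`. -/
structure IsRightOrder {G : Type u} [Group G] (lt : G → G → Prop) : Prop where
  irrefl : ∀ a, ¬ lt a a
  trans : ∀ a b c, lt a b → lt b c → lt a c
  total : ∀ a b, lt a b ∨ a = b ∨ lt b a
  mul_right : ∀ f g h, lt f g → lt (f * h) (g * h)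

/-- `G` is orderable: there is a strict total order invariant under multiplication on
both sides. -/
def Orderable (G : Type u) [Group G] : Prop :=
  ∃ lt : G → G → Prop, IsRightOrder lt ∧ ∀ f g h, lt f g → lt (h * f) (h * g)

/-- The right order `lt` is a Conrad right order: for all `1 < f < g` there is a positive
integer `m` with `f * g ^ m * f⁻¹ > g`. -/
def IsConrad {G : Type u} [Group G] (lt : G → G → Prop) : Prop :=
  ∀ f g, lt 1 f → lt f g → ∃ m : ℕ, 0 < m ∧ lt g (f * g ^ m * f⁻¹)

/-- Every right order on `G` is a Conrad right order. -/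
def AllConrad (G : Type u) [Group G] : Prop :=
  ∀ lt : G → G → Prop, IsRightOrder lt → IsConrad lt

section Cone

variable {G : Type u} [Group G]

/-- Positive cone of a right order. -/
structure IsCone (P : Set G) : Prop where
  mul : ∀ a b, a ∈ P → b ∈ P → a * b ∈ P
  one : (1 : G) ∉ P
  tot : ∀ a, a = 1 ∨ a ∈ P ∨ a⁻¹ ∈ P

theorem IsCone.not_inv {P : Set G} (h : IsCone P) {a : G} (ha : a ∈ P) : a⁻¹ ∉ P := by
  intro h'
  have := h.mul _ _ ha h'
  rw [mul_inv_cancel] at this
  exact h.one this

theorem IsCone.isRightOrder {P : Set G} (h : IsCone P) :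
    IsRightOrder (fun x y : G => y * x⁻¹ ∈ P) where
  irrefl a := by simpa using h.one
  trans a b c hab hbc := by
    have := h.mul _ _ hbc hab
    simpa [mul_assoc] using this
  total a b := by
    rcases h.tot (b * a⁻¹) with h1 | h1 | h1
    · right; left
      exact (mul_inv_eq_one.mp h1).symm
    · left; exact h1
    · right; right
      simpa using h1
  mul_right f g k hfg := by
    simpa [mul_assoc] using hfg

theorem IsRightOrder.isCone {lt : G → G → Prop} (h : IsRightOrder lt) :
    IsCone {x : G | lt 1 x} where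
  mul a b ha hb := by
    have h1 : lt (1 * b) (a * b) := h.mul_right _ _ _ ha
    rw [one_mul] at h1
    exact h.trans _ _ _ hb h1
  one := h.irrefl 1
  tot a := by
    rcases h.total 1 a with h1 | h1 | h1
    · right; left; exact h1
    · left; exact h1.symm
    · right; right
      have := h.mul_right _ _ a⁻¹ h1
      rw [mul_inv_cancel, one_mul] at this
      exact this

/-- A set of elements whose positivity shows that an order is not Conrad. -/
def badSet (f g : G) : Set G :=
  {x | x = f ∨ x = g * f⁻¹ ∨ ∃ m : ℕ, x = g * f * (g⁻¹) ^ m * f⁻¹}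

theorem not_allConrad_of_cone {P : Set G} (hP : IsCone P) {f g : G}
    (h : badSet f g ⊆ P) : ¬ AllConrad G := by
  intro hall
  have h1 : f ∈ P := h (Or.inl rfl)
  have h2 : g * f⁻¹ ∈ P := h (Or.inr (Or.inl rfl))
  obtain ⟨m, hm, h3⟩ := hall _ hP.isRightOrder f g (by simpa using h1) h2
  have h4 : g * f * (g⁻¹) ^ m * f⁻¹ ∈ P := h (Or.inr (Or.inr ⟨m, rfl⟩))
  apply hP.not_inv h3
  convert h4 using 1
  simp [mul_assoc]

/-- If a group acts on a totally ordered set with a certain crossing, it has a
non-Conrad right order. -/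
theorem crossing {Ω : Type v} [LinearOrder Ω] (act : G → Ω → Ω) (act_one : ∀ x, act 1 x = x)
    (act_mul : ∀ a b x, act (a * b) x = act a (act b x))
    (act_mono : ∀ a, StrictMono (act a)) {P₀ : Set G} (hP₀ : IsCone P₀) (w : Ω) (T v : G)
    (hT : act T w = w) (hv : w < act v w)
    (h3 : act (v * v * v) w ≤ act T (act v w)) :
    ∃ P : Set G, IsCone P ∧ badSet v⁻¹ (T * v⁻¹ * v⁻¹) ⊆ P := by
  have inv1 : ∀ a x, act a⁻¹ (act a x) = x := by
    intro a x; rw [← act_mul, inv_mul_cancel, act_one]
  have inv2 : ∀ a x, act a (act a⁻¹ x) = x := by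
    intro a x; rw [← act_mul, mul_inv_cancel, act_one]
  refine ⟨{h | act h w < w ∨ (act h w = w ∧ h ∈ P₀)}, ⟨?_, ?_, ?_⟩, ?_⟩
  · rintro a b ha hb
    rcases hb with hb | ⟨hb, hb'⟩
    · left
      rw [act_mul]
      refine lt_of_lt_of_le (act_mono a hb) ?_
      rcases ha with ha | ⟨ha, _⟩
      · exact ha.le
      · exact ha.le
    · rcases ha with ha | ⟨ha, ha'⟩
      · left; rw [act_mul, hb]; exact ha
      · right
        refine ⟨by rw [act_mul, hb, ha], hP₀.mul _ _ ha' hb'⟩
  · rintro (h | ⟨_, h⟩)
    · rw [act_one] at h; exact lt_irrefl _ h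
    · exact hP₀.one h
  · intro a
    rcases lt_trichotomy (act a w) w with h | h | h
    · right; left; left; exact h
    · rcases hP₀.tot a with h' | h' | h'
      · left; exact h'
      · right; left; right; exact ⟨h, h'⟩
      · right; right; right
        refine ⟨?_, h'⟩
        conv_lhs => rw [← h]
        exact inv1 a w
    · right; right; left
      have := act_mono a⁻¹ h
      rw [inv1] at this
      exact this
  · have hv' : act v⁻¹ w < w := by
      have := act_mono v⁻¹ hv
      rwa [inv1] at this
    have hTi : act T⁻¹ w = w := by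
      conv_lhs => rw [← hT]
      exact inv1 T w
    rintro x (rfl | rfl | ⟨m, rfl⟩)
    · left; exact hv'
    · left
      have e : T * v⁻¹ * v⁻¹ * v⁻¹⁻¹ = T * v⁻¹ := by group
      rw [e, act_mul]
      have := act_mono T hv'
      rwa [hT] at this
    · left
      -- key claim
      have key : ∀ m : ℕ, act ((T * v⁻¹ * v⁻¹)⁻¹ ^ m) (act v w) < act (v * v * v) w := by
        intro m
        induction m with
        | zero =>
          rw [pow_zero, act_one, mul_assoc, act_mul v (v * v)]
          apply act_mono v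
          rw [act_mul]
          exact hv.trans (act_mono v hv)
        | succ m ih =>
          rw [pow_succ', act_mul]
          have h5 := act_mono (T * v⁻¹ * v⁻¹)⁻¹ ih
          refine lt_of_lt_of_le h5 ?_
          have e : (T * v⁻¹ * v⁻¹)⁻¹ = v * v * T⁻¹ := by simp [mul_assoc]
          have e2 : act (v * v * v) w = act (v * v) (act v w) := act_mul _ _ _
          rw [e, act_mul (v * v) T⁻¹]
          conv_rhs => rw [e2]
          apply (act_mono (v * v)).monotone
          have := (act_mono T⁻¹).monotone h3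
          rwa [inv1] at this
      have h6 := key m
      have e : T * v⁻¹ * v⁻¹ * v⁻¹ * ((T * v⁻¹ * v⁻¹)⁻¹) ^ m * v⁻¹⁻¹ =
          (T * v⁻¹ * v⁻¹ * v⁻¹) * (((T * v⁻¹ * v⁻¹)⁻¹) ^ m * v) := by
        simp [mul_assoc]
      rw [e, act_mul, act_mul _ v]
      refine lt_of_lt_of_le (act_mono _ h6) ?_
      rw [← act_mul]
      have e2 : T * v⁻¹ * v⁻¹ * v⁻¹ * (v * v * v) = T := by group
      rw [e2, hT]

end Cone

section Compactness

variable {G : Type u} [Group G]

/-- Compactness criterion for the existence of right orders. -/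
theorem compactness (S : Set G)
    (h : ∀ E : Finset G, ∃ Q : Set G, (∀ a ∈ Q, ∀ b ∈ Q, a * b ∈ Q) ∧ (1 : G) ∉ Q ∧
      (∀ s ∈ E, s ∈ S → s ∈ Q) ∧ (∀ e ∈ E, e = 1 ∨ e ∈ Q ∨ e⁻¹ ∈ Q)) :
    ∃ P : Set G, IsCone P ∧ S ⊆ P := by
  classical
  choose Q hQm hQ1 hQS hQt using h
  let U : Ultrafilter (Finset G) := Ultrafilter.of Filter.atTop
  have hU : (U : Filter (Finset G)) ≤ Filter.atTop := Ultrafilter.of_le _
  have hev : ∀ g : G, ∀ᶠ E in (U : Filter (Finset G)), g ∈ E := by
    intro g
    have : ∀ᶠ E in (Filter.atTop : Filter (Finset G)), ({g} : Finset G) ≤ E :=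
      Filter.eventually_ge_atTop _
    exact (Filter.Eventually.filter_mono hU this).mono
      (fun E hE => hE (Finset.mem_singleton_self g))
  refine ⟨{g | ∀ᶠ E in (U : Filter (Finset G)), g ∈ Q E}, ⟨?_, ?_, ?_⟩, ?_⟩
  · intro a b ha hb
    filter_upwards [ha, hb] with E h1 h2
    exact hQm E a h1 b h2
  · intro h1
    have h1' : ∀ᶠ E in (U : Filter (Finset G)), (1 : G) ∈ Q E := h1
    obtain ⟨E, hE⟩ := h1'.exists
    exact hQ1 E hE
  · intro a
    by_cases ha : a = 1
    · left; exact ha
    right
    have h1 : ∀ᶠ E in (U : Filter (Finset G)), a ∈ Q E ∨ a⁻¹ ∈ Q E := by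
      filter_upwards [hev a] with E hE
      rcases hQt E a hE with h | h
      · exact absurd h ha
      · exact h
    exact (Ultrafilter.eventually_or).mp h1
  · intro s hs
    filter_upwards [hev s] with E hE
    exact hQS E s hE hs

end Compactness

end Pool.Agent.ConradOrders
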