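import Mathlib

/-!
Existence of integer characters on finitely generated groups.
-/

namespace Pool.Agent.ConradOrders

universe u

open scoped commutatorElement

/-- A finitely generated group with a proper isolated subgroup containing all commutators has
a nontrivial integer valued character killing that subgroup. -/
theorem exists_char {K : Type u} [Group K] [Group.FG K] (N : Subgroup K)
    (hc : ∀ a b : K, ⁅a, b⁆ ∈ N) (hiso : ∀ x : K, ∀ n : ℕ, 0 < n → x ^ n ∈ N → x ∈ N)
    (hN : N ≠ ⊤) : ∃ χ : K →* Multiplicative ℤ, (∀ x ∈ N, χ x = 1) ∧ ∃ k, χ k ≠ 1 := by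
  classical
  have hnorm : N.Normal := by
    refine ⟨fun n hn g => ?_⟩
    have : g * n * g⁻¹ = ⁅g, n⁆ * n := by simp [commutatorElement_def]
    rw [this]
    exact N.mul_mem (hc _ _) hn
  have hcomm : ∀ a b : K ⧸ N, a * b = b * a := by
    intro a b
    induction a using QuotientGroup.induction_on with
    | H a =>
      induction b using QuotientGroup.induction_on with
      | H b =>
        rw [← QuotientGroup.mk_mul, ← QuotientGroup.mk_mul, QuotientGroup.eq]
        have : (a * b)⁻¹ * (b * a) = ⁅b⁻¹, a⁻¹⁆ := by simp [commutatorElement_def, mul_assoc]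
        rw [this]
        exact hc _ _
  let _ : CommGroup (K ⧸ N) := { (inferInstance : Group (K ⧸ N)) with mul_comm := hcomm }
  have : Group.FG (K ⧸ N) := inferInstance
  have : Module.Finite ℤ (Additive (K ⧸ N)) := by
    rw [Module.Finite.iff_addGroup_fg]
    infer_instance
  have hmtf : IsMulTorsionFree (K ⧸ N) := by
    refine ⟨fun n hn a b hab => ?_⟩
    have hab' : a ^ n = b ^ n := hab
    have h1 : (a * b⁻¹) ^ n = 1 := by
      rw [mul_pow, hab', inv_pow, mul_inv_cancel]
    have h2 : a * b⁻¹ = 1 := by
      generalize a * b⁻¹ = c at h1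
      induction c using QuotientGroup.induction_on with
      | H c =>
        rw [← QuotientGroup.mk_pow, QuotientGroup.eq_one_iff] at h1
        rw [QuotientGroup.eq_one_iff]
        exact hiso c n (Nat.pos_of_ne_zero hn) h1
    exact mul_inv_eq_one.mp h2
  have : Module.IsTorsionFree ℤ (Additive (K ⧸ N)) := by
    rw [Module.isTorsionFree_int_iff_isAddTorsionFree]
    infer_instance
  have : Module.Free ℤ (Additive (K ⧸ N)) := Module.free_of_finite_type_torsion_free'
  obtain ⟨k, hk⟩ : ∃ k : K, k ∉ N := by
    by_contra hcon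
    push Not at hcon
    exact hN ((Subgroup.eq_top_iff' N).mpr hcon)
  let b := Module.Free.chooseBasis ℤ (Additive (K ⧸ N))
  have hk0 : (Additive.ofMul (k : K ⧸ N)) ≠ 0 := by
    intro h
    apply hk
    rw [← QuotientGroup.eq_one_iff]
    exact h
  obtain ⟨i, hi⟩ : ∃ i, b.repr (Additive.ofMul (k : K ⧸ N)) i ≠ 0 := by
    by_contra hcon
    push Not at hcon
    apply hk0
    apply b.repr.injective
    ext i
    simp [hcon i]
  refine ⟨(AddMonoidHom.toMultiplicativeRight (b.coord i).toAddMonoidHom).comp (QuotientGroup.mk' N), ?_, k, ?_⟩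
  · intro x hx
    have : (QuotientGroup.mk' N) x = 1 := (QuotientGroup.eq_one_iff x).mpr hx
    rw [MonoidHom.comp_apply, this, map_one]
  · intro h
    apply hi
    exact h

end Pool.Agent.ConradOrders
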