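import Mathlib
import Pool.Agent.ConradOrders.Basic
import Pool.Agent.ConradOrders.Char

/-!
The hull of a finite set, and the extension of right orders from the hull.
-/

namespace Pool.Agent.ConradOrders

universe u

open scoped commutatorElement

variable {G : Type u} [Group G]

/-- `K` contains `X` and no proper isolated subgroup of `K` containing the commutators of `K`
contains `X`. -/
def TermIn (K : Subgroup G) (X : Set G) : Prop :=
  X ⊆ K ∧ ∀ N : Subgroup G, (∀ a ∈ K, ∀ b ∈ K, ⁅a, b⁆ ∈ N) →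
    (∀ x ∈ K, ∀ n : ℕ, 0 < n → x ^ n ∈ N → x ∈ N) → X ⊆ N → K ≤ N

theorem TermIn.sup {K L : Subgroup G} {X : Set G} (hK : TermIn K X) (hL : TermIn L X) :
    TermIn (K ⊔ L) X := by
  refine ⟨fun x hx => (le_sup_left : K ≤ K ⊔ L) (hK.1 hx), fun N h1 h2 h3 => ?_⟩
  have hKs : K ≤ K ⊔ L := le_sup_left
  have hLs : L ≤ K ⊔ L := le_sup_right
  exact sup_le
    (hK.2 N (fun a ha b hb => h1 a (hKs ha) b (hKs hb)) (fun x hx => h2 x (hKs hx)) h3)
    (hL.2 N (fun a ha b hb => h1 a (hLs ha) b (hLs hb)) (fun x hx => h2 x (hLs hx)) h3)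

theorem termIn_closure (X : Set G) : TermIn (Subgroup.closure X) X :=
  ⟨Subgroup.subset_closure, fun N _ _ h3 => (Subgroup.closure_le N).mpr h3⟩

/-- The hull of `X`, as a subgroup. -/
def hull (X : Set G) (hX : X.Finite) : Subgroup G where
  carrier := {g | ∃ K : Subgroup G, K.FG ∧ TermIn K X ∧ g ∈ K}
  one_mem' := ⟨Subgroup.closure X, (Subgroup.fg_iff _).mpr ⟨X, rfl, hX⟩, termIn_closure X,
    Subgroup.one_mem _⟩
  mul_mem' := by
    rintro a b ⟨K, hK, hK', ha⟩ ⟨L, hL, hL', hb⟩
    exact ⟨K ⊔ L, hK.sup hL, hK'.sup hL', Subgroup.mul_mem _ ((le_sup_left : K ≤ K ⊔ L) ha)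
      ((le_sup_right : L ≤ K ⊔ L) hb)⟩
  inv_mem' := by
    rintro a ⟨K, hK, hK', ha⟩
    exact ⟨K, hK, hK', Subgroup.inv_mem _ ha⟩

theorem subset_hull (X : Set G) (hX : X.Finite) : X ⊆ hull X hX := fun _ hx =>
  ⟨Subgroup.closure X, (Subgroup.fg_iff _).mpr ⟨X, rfl, hX⟩, termIn_closure X,
    Subgroup.subset_closure hx⟩

theorem finset_hull (X : Set G) (hX : X.Finite) (E : Finset G) (hE : ∀ e ∈ E, e ∈ hull X hX) :
    ∃ K : Subgroup G, K.FG ∧ TermIn K X ∧ ∀ e ∈ E, e ∈ K := by
  classical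
  induction E using Finset.induction_on with
  | empty =>
    exact ⟨Subgroup.closure X, (Subgroup.fg_iff _).mpr ⟨X, rfl, hX⟩, termIn_closure X,
      fun e he => by simp at he⟩
  | insert a E _ ih =>
    obtain ⟨K, hK, hK', hK''⟩ := ih (fun e he => hE e (Finset.mem_insert_of_mem he))
    obtain ⟨L, hL, hL', hL''⟩ := hE a (Finset.mem_insert_self a E)
    refine ⟨K ⊔ L, hK.sup hL, hK'.sup hL', fun e he => ?_⟩
    rcases Finset.mem_insert.mp he with rfl | he
    · exact (le_sup_right : L ≤ K ⊔ L) hL''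
    · exact (le_sup_left : K ≤ K ⊔ L) (hK'' e he)

/-- Extension of partial right orders from the hull to the whole group. -/
theorem extend_hull (X : Set G) (hX : X.Finite) (S : Set G) (hS : S ⊆ hull X hX)
    (h : ∀ K : Subgroup G, K.FG → TermIn K X → ∃ P : Set G,
      (∀ a ∈ P, ∀ b ∈ P, a * b ∈ P) ∧ (1 : G) ∉ P ∧ (∀ a ∈ K, a = 1 ∨ a ∈ P ∨ a⁻¹ ∈ P) ∧
      (∀ s ∈ S, s ∈ K → s ∈ P)) :
    ∃ P : Set G, IsCone P ∧ S ⊆ P := by
  classical
  apply compactness
  -- strong induction on the number of elements outside the hull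
  have key : ∀ n : ℕ, ∀ E : Finset G, (E.filter (fun e => e ∉ hull X hX)).card = n →
      ∃ Q : Set G, (∀ a ∈ Q, ∀ b ∈ Q, a * b ∈ Q) ∧ (1 : G) ∉ Q ∧
      (∀ s ∈ E, s ∈ S → s ∈ Q) ∧ (∀ e ∈ E, e = 1 ∨ e ∈ Q ∨ e⁻¹ ∈ Q) := by
    intro n
    induction n using Nat.strong_induction_on with
    | _ n ih =>
    intro E hE
    obtain ⟨H₁, hH₁, hH₁', hH₁''⟩ := finset_hull X hX (E.filter (fun e => e ∈ hull X hX))
      (fun e he => (Finset.mem_filter.mp he).2)
    let K : Subgroup G := H₁ ⊔ Subgroup.closure (E : Set G)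
    have hKfg : K.FG := hH₁.sup ((Subgroup.fg_iff _).mpr ⟨E, rfl, E.finite_toSet⟩)
    have hEK : ∀ e ∈ E, e ∈ K := fun e he =>
      (le_sup_right : Subgroup.closure (E : Set G) ≤ K) (Subgroup.subset_closure he)
    have hH₁K : H₁ ≤ K := le_sup_left
    by_cases hT : TermIn K X
    · obtain ⟨P, hP1, hP2, hP3, hP4⟩ := h K hKfg hT
      exact ⟨P, hP1, hP2, fun s hs hsS => hP4 s hsS (hEK s hs), fun e he => hP3 e (hEK e he)⟩
    · have hXK : X ⊆ K := fun x hx => hH₁K (hH₁'.1 hx)
      have hex : ∃ N : Subgroup G, (∀ a ∈ K, ∀ b ∈ K, ⁅a, b⁆ ∈ N) ∧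
          (∀ x ∈ K, ∀ n : ℕ, 0 < n → x ^ n ∈ N → x ∈ N) ∧ X ⊆ N ∧ ¬ K ≤ N := by
        by_contra hcon
        push Not at hcon
        exact hT ⟨hXK, hcon⟩
      obtain ⟨N, hN1, hN2, hN3, hN4⟩ := hex
      have : Group.FG K := (Group.fg_iff_subgroup_fg K).mpr hKfg
      obtain ⟨χ, hχ1, k, hk⟩ := exists_char (K := K) (N.subgroupOf K)
        (fun a b => by
          rw [Subgroup.mem_subgroupOf]
          exact hN1 a a.2 b b.2)
        (fun x n hn hx => by
          rw [Subgroup.mem_subgroupOf] at hx ⊢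
          exact hN2 x x.2 n hn (by simpa using hx))
        (fun htop => hN4 (by
          intro x hx
          have : (⟨x, hx⟩ : K) ∈ N.subgroupOf K := by rw [htop]; trivial
          exact this))
      -- `χ` kills `H₁`
      have hker : ∀ x (hx : x ∈ K), x ∈ H₁ → χ ⟨x, hx⟩ = 1 := by
        intro x hx hxH
        have h1 : H₁ ≤ (χ.ker.map K.subtype) ⊔ ⊥ := by
          apply hH₁'.2
          · intro a ha b hb
            rw [sup_bot_eq]
            refine ⟨⟨⁅a, b⁆, K.mul_mem (K.mul_mem (K.mul_mem (hH₁K ha) (hH₁K hb))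
              (K.inv_mem (hH₁K ha))) (K.inv_mem (hH₁K hb))⟩, ?_, rfl⟩
            have : (⟨⁅a, b⁆, K.mul_mem (K.mul_mem (K.mul_mem (hH₁K ha) (hH₁K hb))
              (K.inv_mem (hH₁K ha))) (K.inv_mem (hH₁K hb))⟩ : K) =
              ⁅(⟨a, hH₁K ha⟩ : K), (⟨b, hH₁K hb⟩ : K)⁆ := by
              apply Subtype.ext
              simp [commutatorElement_def]
            rw [this]
            change χ _ = 1
            rw [map_commutatorElement, commutatorElement_eq_one_iff_mul_comm, mul_comm]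
          · intro a ha n hn han
            rw [sup_bot_eq] at han ⊢
            obtain ⟨y, hy, hy'⟩ := han
            refine ⟨⟨a, hH₁K ha⟩, ?_, rfl⟩
            have h2 : y = (⟨a, hH₁K ha⟩ : K) ^ n := by
              apply Subtype.ext
              simpa using hy'
            have h3 : χ y = 1 := hy
            rw [h2, map_pow] at h3
            change χ _ = 1
            have h4 : (n : ℤ) * Multiplicative.toAdd (χ ⟨a, hH₁K ha⟩) = 0 := by
              have := congrArg Multiplicative.toAdd h3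
              simpa using this
            have h5 : Multiplicative.toAdd (χ ⟨a, hH₁K ha⟩) = 0 := by
              rcases mul_eq_zero.mp h4 with h | h
              · exact absurd h (by exact_mod_cast hn.ne')
              · exact h
            exact h5
          · intro x hx
            rw [sup_bot_eq]
            refine ⟨⟨x, hXK hx⟩, ?_, rfl⟩
            exact hχ1 _ (by rw [Subgroup.mem_subgroupOf]; exact hN3 hx)
        rw [sup_bot_eq] at h1
        obtain ⟨y, hy, hy'⟩ := h1 hxH
        have : y = ⟨x, hx⟩ := Subtype.ext hy'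
        rw [← this]
        exact hy
      -- some element of `E` has nonzero value
      have hexE : ∃ e, ∃ he : e ∈ E, χ ⟨e, hEK e he⟩ ≠ 1 := by
        by_contra hcon
        push Not at hcon
        apply hk
        have h1 : K ≤ χ.ker.map K.subtype := by
          apply sup_le
          · intro x hx
            exact ⟨⟨x, hH₁K hx⟩, hker x _ hx, rfl⟩
          · rw [Subgroup.closure_le]
            intro x hx
            exact ⟨⟨x, hEK x hx⟩, hcon x hx, rfl⟩
        obtain ⟨y, hy, hy'⟩ := h1 k.2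
        have : y = k := Subtype.ext hy'
        rw [← this]
        exact hy
      obtain ⟨e₀, he₀, he₀'⟩ := hexE
      let E₀ : Finset G := E.filter (fun e => ∀ he : e ∈ K, χ ⟨e, he⟩ = 1)
      have hE₀ : ∀ e ∈ E, e ∈ hull X hX → e ∈ E₀ := by
        intro e he heH
        rw [Finset.mem_filter]
        exact ⟨he, fun heK => hker e heK (hH₁'' e (Finset.mem_filter.mpr ⟨he, heH⟩))⟩
      have hcard : (E₀.filter (fun e => e ∉ hull X hX)).card < n := by
        rw [← hE]
        apply Finset.card_lt_card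
        rw [Finset.ssubset_iff_of_subset]
        · refine ⟨e₀, ?_, ?_⟩
          · rw [Finset.mem_filter]
            refine ⟨he₀, fun hc => he₀' ?_⟩
            exact (Finset.mem_filter.mp (hE₀ e₀ he₀ hc)).2 _
          · intro hc
            exact he₀' ((Finset.mem_filter.mp (Finset.mem_filter.mp hc).1).2 _)
        · intro x hx
          rw [Finset.mem_filter] at hx ⊢
          exact ⟨(Finset.mem_filter.mp hx.1).1, hx.2⟩
      obtain ⟨Q₀, hQ1, hQ2, hQ3, hQ4⟩ := ih _ hcard E₀ rfl
      refine ⟨{g | ∃ hg : g ∈ K, 0 < Multiplicative.toAdd (χ ⟨g, hg⟩) ∨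
        (Multiplicative.toAdd (χ ⟨g, hg⟩) = 0 ∧ g ∈ Q₀)}, ?_, ?_, ?_, ?_⟩
      · rintro a ⟨haK, ha⟩ b ⟨hbK, hb⟩
        refine ⟨K.mul_mem haK hbK, ?_⟩
        have e1 : Multiplicative.toAdd (χ ⟨a * b, K.mul_mem haK hbK⟩) =
            Multiplicative.toAdd (χ ⟨a, haK⟩) + Multiplicative.toAdd (χ ⟨b, hbK⟩) := by
          rw [← toAdd_mul, ← map_mul]
          rfl
        rw [e1]
        rcases ha with ha | ⟨ha, ha'⟩
        · left
          rcases hb with hb | ⟨hb, _⟩ <;> omega
        · rcases hb with hb | ⟨hb, hb'⟩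
          · left; omega
          · right; exact ⟨by omega, hQ1 a ha' b hb'⟩
      · rintro ⟨h1K, h1 | ⟨_, h1⟩⟩
        · have : (⟨1, h1K⟩ : K) = 1 := rfl
          rw [this, map_one] at h1
          simp at h1
        · exact hQ2 h1
      · intro s hs hsS
        have hsE₀ := hE₀ s hs (hS hsS)
        refine ⟨hEK s hs, Or.inr ⟨?_, hQ3 s hsE₀ hsS⟩⟩
        have := (Finset.mem_filter.mp hsE₀).2 (hEK s hs)
        rw [this]; rfl
      · intro e he
        have hinv : Multiplicative.toAdd (χ ⟨e⁻¹, K.inv_mem (hEK e he)⟩) =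
            - Multiplicative.toAdd (χ ⟨e, hEK e he⟩) := by
          rw [← toAdd_inv, ← map_inv]
          rfl
        rcases lt_trichotomy (Multiplicative.toAdd (χ ⟨e, hEK e he⟩)) 0 with hlt | heq | hgt
        · right; right
          exact ⟨K.inv_mem (hEK e he), Or.inl (by rw [hinv]; omega)⟩
        · have heE₀ : e ∈ E₀ := by
            rw [Finset.mem_filter]
            exact ⟨he, fun _ => heq⟩
          rcases hQ4 e heE₀ with h1 | h1 | h1
          · left; exact h1
          · right; left; exact ⟨hEK e he, Or.inr ⟨heq, h1⟩⟩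
          · right; right
            exact ⟨K.inv_mem (hEK e he), Or.inr ⟨by rw [hinv]; omega, h1⟩⟩
        · right; left
          exact ⟨hEK e he, Or.inl hgt⟩
  intro E
  exact key _ E rfl

/-- The property that all right orders are Conrad passes to hulls. -/
theorem allConrad_hull (hG : AllConrad G) (X : Set G) (hX : X.Finite) :
    AllConrad (hull X hX) := by
  intro lt hlt f g hf hfg
  have hcone := hlt.isCone
  set P₀ : Set (hull X hX) := {x | lt 1 x} with hP₀
  obtain ⟨P, hP, hSP⟩ := extend_hull X hX (Subtype.val '' P₀)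
    (by rintro _ ⟨y, _, rfl⟩; exact y.2)
    (by
      intro K hK hKT
      have hKH : K ≤ hull X hX := fun x hx => ⟨K, hK, hKT, hx⟩
      refine ⟨Subtype.val '' P₀, ?_, ?_, ?_, ?_⟩
      · rintro _ ⟨a, ha, rfl⟩ _ ⟨b, hb, rfl⟩
        exact ⟨a * b, hcone.mul a b ha hb, rfl⟩
      · rintro ⟨a, ha, ha'⟩
        have : a = 1 := Subtype.ext ha'
        rw [this] at ha
        exact hcone.one ha
      · intro a ha
        rcases hcone.tot ⟨a, hKH ha⟩ with h | h | h
        · left; exact congrArg Subtype.val h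
        · right; left; exact ⟨_, h, rfl⟩
        · right; right; exact ⟨_, h, rfl⟩
      · intro s hs _
        exact hs)
  have hmem : ∀ x : hull X hX, (x : G) ∈ P → lt 1 x := by
    intro x hx
    rcases hcone.tot x with h | h | h
    · rw [h] at hx
      exact absurd hx hP.one
    · exact h
    · have : ((x⁻¹ : hull X hX) : G) ∈ P := hSP ⟨_, h, rfl⟩
      exact absurd this (hP.not_inv hx)
  have hconv : ∀ x y : hull X hX, lt x y → ((y : G) * (x : G)⁻¹) ∈ P := by
    intro x y hxy
    have h1 : lt (x * x⁻¹) (y * x⁻¹) := hlt.mul_right _ _ _ hxy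
    rw [mul_inv_cancel] at h1
    exact hSP ⟨_, h1, rfl⟩
  obtain ⟨m, hm, h1⟩ := hG _ hP.isRightOrder (f : G) (g : G) (by simpa using hconv 1 f hf)
    (hconv f g hfg)
  refine ⟨m, hm, ?_⟩
  have h2 : lt 1 (f * g ^ m * f⁻¹ * g⁻¹) := hmem _ (by simpa using h1)
  have h3 := hlt.mul_right _ _ g h2
  simpa using h3

end Pool.Agent.ConradOrders
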