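import Mathlib
import Pool.Agent.ConradOrders.Hull

/-!
Nilpotent torsion-free groups, left-normed commutators, and groups rationally generated by
a set.
-/

namespace Pool.Agent.ConradOrders

universe u v

open scoped commutatorElement
open Subgroup hiding upperCentralSeries upperCentralSeries_zero mem_upperCentralSeries_succ_iff
  lowerCentralSeries_succ upperCentralSeries_mono

section Basic

variable {G : Type u} [Group G]

/-- Left-normed commutators of weight `n + 1` in elements of `X`. -/
def lnc (X : Set G) : ℕ → Set G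
  | 0 => X
  | n + 1 => {z | ∃ u ∈ lnc X n, ∃ x ∈ X, z = ⁅u, x⁆}

theorem lnc_finite {X : Set G} (hX : X.Finite) : ∀ n, (lnc X n).Finite
  | 0 => hX
  | n + 1 => by
    have h := lnc_finite hX n
    have : lnc X (n + 1) = Set.image2 (fun u x => ⁅u, x⁆) (lnc X n) X := by
      ext z
      simp only [lnc, Set.mem_ofPred_eq, Set.mem_image2]
      constructor
      · rintro ⟨u, hu, x, hx, rfl⟩; exact ⟨u, hu, x, hx, rfl⟩
      · rintro ⟨u, hu, x, hx, rfl⟩; exact ⟨u, hu, x, hx, rfl⟩
    rw [this]
    exact h.image2 _ hX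

theorem mem_lnc_map {H : Type v} [Group H] (f : G →* H) (X : Set G) :
    ∀ n, ∀ z ∈ lnc (f '' X) n, ∃ u ∈ lnc X n, f u = z
  | 0 => by
    rintro z ⟨x, hx, rfl⟩
    exact ⟨x, hx, rfl⟩
  | n + 1 => by
    rintro z ⟨u, hu, x, ⟨x', hx', rfl⟩, rfl⟩
    obtain ⟨u', hu', rfl⟩ := mem_lnc_map f X n u hu
    exact ⟨⁅u', x'⁆, ⟨u', hu', x', hx', rfl⟩, by rw [map_commutatorElement]⟩

theorem map_mem_lnc {H : Type v} [Group H] (f : G →* H) (X : Set G) :
    ∀ n, ∀ u ∈ lnc X n, f u ∈ lnc (f '' X) n
  | 0 => by
    rintro u hu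
    exact ⟨u, hu, rfl⟩
  | n + 1 => by
    rintro z ⟨u, hu, x, hx, rfl⟩
    exact ⟨f u, map_mem_lnc f X n u hu, f x, ⟨x, hx, rfl⟩, by rw [map_commutatorElement]⟩

theorem lnc_mem_lcs (X : Set G) :
    ∀ n, ∀ u ∈ lnc X n, u ∈ (⊤ : Subgroup G).lowerCentralSeries n
  | 0 => fun _ _ => trivial
  | n + 1 => by
    rintro z ⟨u, hu, x, hx, rfl⟩
    rw [Subgroup.lowerCentralSeries_succ]
    exact commutator_mem_commutator (lnc_mem_lcs X n u hu) trivial

theorem lnc_mono {X Y : Set G} (h : X ⊆ Y) : ∀ n, lnc X n ⊆ lnc Y n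
  | 0 => h
  | n + 1 => by
    rintro z ⟨u, hu, x, hx, rfl⟩
    exact ⟨u, lnc_mono h n hu, x, h hx, rfl⟩

/-- The subgroup of elements commuting with `z` modulo the normal subgroup `N`. -/
def commSub (N : Subgroup G) [N.Normal] (z : G) : Subgroup G :=
  (centralizer {(z : G ⧸ N)}).comap (QuotientGroup.mk' N)

theorem mem_commSub {N : Subgroup G} [N.Normal] {z y : G} : y ∈ commSub N z ↔ ⁅z, y⁆ ∈ N := by
  rw [commSub, mem_comap, mem_centralizer_singleton_iff, QuotientGroup.mk'_apply,
    ← QuotientGroup.mk_mul, ← QuotientGroup.mk_mul, ← QuotientGroup.eq_one_iff,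
    ← mul_inv_eq_one, ← QuotientGroup.mk_inv, ← QuotientGroup.mk_mul]
  have e : y * z * (z * y)⁻¹ = ⁅z, y⁆⁻¹ := by
    simp [commutatorElement_def, mul_assoc]
  rw [e, QuotientGroup.mk_inv, inv_eq_one]

theorem ucs_of_lnc {X : Set G} (hX : closure X = ⊤) {n : ℕ} (h : ∀ z ∈ lnc X n, z = 1) :
    Subgroup.upperCentralSeries G n = ⊤ := by
  have key : ∀ j i : ℕ, i + j = n → ∀ z ∈ lnc X i, z ∈ Subgroup.upperCentralSeries G j := by
    intro j
    induction j with
    | zero =>
      intro i hi z hz
      rw [add_zero] at hi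
      subst hi
      rw [h z hz]
      exact one_mem _
    | succ j ih =>
      intro i hi z hz
      rw [Subgroup.mem_upperCentralSeries_succ_iff]
      intro y
      rw [← mem_commSub]
      have : closure X ≤ commSub (Subgroup.upperCentralSeries G j) z := by
        rw [closure_le]
        intro x hx
        rw [SetLike.mem_coe, mem_commSub]
        exact ih (i + 1) (by omega) _ ⟨z, hz, x, hx, rfl⟩
      exact this (by rw [hX]; trivial)
  rw [eq_top_iff, ← hX, closure_le]
  intro x hx
  exact key n 0 (by omega) x hx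

/-- Torsion-free groups. -/
def TF (G : Type u) [Group G] : Prop := ∀ x : G, ∀ n : ℕ, 0 < n → x ^ n = 1 → x = 1

/-- Groups with unique roots. -/
def Roots (G : Type u) [Group G] : Prop := ∀ x y : G, ∀ n : ℕ, 0 < n → x ^ n = y ^ n → x = y

theorem central_comm_pow {x y c : G} (h : x * y = c * (y * x)) (hx : Commute c x)
    (hy : Commute c y) (n : ℕ) : x ^ n * y = c ^ n * (y * x ^ n) := by
  induction n with
  | zero => simp
  | succ n ih =>
    calc x ^ (n + 1) * y = x * (x ^ n * y) := by rw [pow_succ', mul_assoc]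
      _ = x * (c ^ n * (y * x ^ n)) := by rw [ih]
      _ = c ^ n * (x * y * x ^ n) := by
          rw [← mul_assoc x (c ^ n), (hx.symm.pow_right n).eq]; simp only [mul_assoc]
      _ = c ^ n * (c * (y * x) * x ^ n) := by rw [h]
      _ = c ^ (n + 1) * (y * x ^ (n + 1)) := by
          rw [pow_succ c, pow_succ' x]; simp only [mul_assoc]

theorem central_mul_pow {z y : G} (hy : Commute z y) (n : ℕ) : (z * y) ^ n = z ^ n * y ^ n :=
  hy.mul_pow n

theorem comm_pow_mem {N : Subgroup G} [N.Normal] {x y : G} (hx : ⁅⁅x, y⁆, x⁆ ∈ N)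
    (hy : ⁅⁅x, y⁆, y⁆ ∈ N) (n : ℕ) (h : ⁅x ^ n, y⁆ ∈ N) : ⁅x, y⁆ ^ n ∈ N := by
  have h1 : Commute ((⁅x, y⁆ : G) : G ⧸ N) (x : G ⧸ N) := by
    rw [← QuotientGroup.eq_one_iff] at hx
    have : ⁅((⁅x, y⁆ : G) : G ⧸ N), (x : G ⧸ N)⁆ = 1 := by
      rw [← hx]; rfl
    exact (commutatorElement_eq_one_iff_mul_comm.mp this)
  have h2 : Commute ((⁅x, y⁆ : G) : G ⧸ N) (y : G ⧸ N) := by
    rw [← QuotientGroup.eq_one_iff] at hy
    have : ⁅((⁅x, y⁆ : G) : G ⧸ N), (y : G ⧸ N)⁆ = 1 := by
      rw [← hy]; rfl
    exact (commutatorElement_eq_one_iff_mul_comm.mp this)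
  have h3 : (x : G ⧸ N) * (y : G ⧸ N) = ((⁅x, y⁆ : G) : G ⧸ N) * ((y : G ⧸ N) * (x : G ⧸ N)) := by
    rw [← QuotientGroup.mk_mul, ← QuotientGroup.mk_mul, ← QuotientGroup.mk_mul]
    congr 1
    simp [commutatorElement_def, mul_assoc]
  have h4 := central_comm_pow h3 h1 h2 n
  have h5 : ((⁅x ^ n, y⁆ : G) : G ⧸ N) = 1 := (QuotientGroup.eq_one_iff _).mpr h
  have h6 : ((⁅x ^ n, y⁆ : G) : G ⧸ N) =
      (x : G ⧸ N) ^ n * (y : G ⧸ N) * ((y : G ⧸ N) * (x : G ⧸ N) ^ n)⁻¹ := by
    rw [← QuotientGroup.mk_pow, ← QuotientGroup.mk_mul, ← QuotientGroup.mk_mul,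
      ← QuotientGroup.mk_inv, ← QuotientGroup.mk_mul]
    congr 1
    simp [commutatorElement_def, mul_assoc]
  rw [h5, h4] at h6
  rw [← QuotientGroup.eq_one_iff, QuotientGroup.mk_pow]
  rw [mul_inv_cancel_right] at h6
  exact h6.symm

theorem ucs_isolated (hTF : TF G) : ∀ k : ℕ, ∀ x : G, ∀ n : ℕ, 0 < n →
    x ∈ Subgroup.upperCentralSeries G (k + 1) → x ^ n ∈ Subgroup.upperCentralSeries G k →
    x ∈ Subgroup.upperCentralSeries G k := by
  intro k
  induction k with
  | zero =>
    intro x n hn _ h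
    rw [Subgroup.upperCentralSeries_zero, mem_bot] at h ⊢
    exact hTF x n hn h
  | succ k ih =>
    intro x n hn hx h
    rw [Subgroup.mem_upperCentralSeries_succ_iff] at h ⊢
    intro y
    have h1 : ⁅x, y⁆ ∈ Subgroup.upperCentralSeries G (k + 1) :=
      Subgroup.mem_upperCentralSeries_succ_iff.mp hx y
    apply ih _ n hn h1
    apply comm_pow_mem
    · exact Subgroup.mem_upperCentralSeries_succ_iff.mp h1 _
    · exact Subgroup.mem_upperCentralSeries_succ_iff.mp h1 _
    · exact h y

theorem ucs_isolated' (hTF : TF G) (hnil : Group.IsNilpotent G) (k : ℕ) (x : G) (n : ℕ)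
    (hn : 0 < n) (h : x ^ n ∈ Subgroup.upperCentralSeries G k) : x ∈ Subgroup.upperCentralSeries G k := by
  classical
  obtain ⟨m, hm⟩ := hnil.nilpotent'
  have hex : ∃ j, x ∈ Subgroup.upperCentralSeries G j := ⟨m, by rw [hm]; trivial⟩
  have hj := Nat.find_spec hex
  rcases le_or_gt (Nat.find hex) k with hle | hgt
  · exact Subgroup.upperCentralSeries_mono G hle hj
  · exfalso
    obtain ⟨i, hi⟩ : ∃ i, Nat.find hex = i + 1 := ⟨Nat.find hex - 1, by omega⟩
    rw [hi] at hj hgt
    have h1 := ucs_isolated hTF i x n hn hj (Subgroup.upperCentralSeries_mono G (by omega) h)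
    exact Nat.find_min hex (by omega) h1

theorem roots_of_nilpotent (hTF : TF G) (hnil : Group.IsNilpotent G) : Roots G := by
  classical
  intro x y n hn hxy
  obtain ⟨m, hm⟩ := hnil.nilpotent'
  have hex : ∃ j, x * y⁻¹ ∈ Subgroup.upperCentralSeries G j := ⟨m, by rw [hm]; trivial⟩
  have hj := Nat.find_spec hex
  rcases Nat.eq_zero_or_pos (Nat.find hex) with h0 | hpos
  · rw [h0, Subgroup.upperCentralSeries_zero, mem_bot] at hj
    exact mul_inv_eq_one.mp hj
  · exfalso
    obtain ⟨i, hi⟩ : ∃ i, Nat.find hex = i + 1 := ⟨Nat.find hex - 1, by omega⟩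
    rw [hi] at hj
    apply Nat.find_min hex (m := i) (by omega)
    apply ucs_isolated' hTF hnil i _ n hn
    -- work modulo `Z_i`
    have hc : Commute ((x * y⁻¹ : G) : G ⧸ Subgroup.upperCentralSeries G i)
        (y : G ⧸ Subgroup.upperCentralSeries G i) := by
      have h1 := Subgroup.mem_upperCentralSeries_succ_iff.mp hj y
      rw [← QuotientGroup.eq_one_iff] at h1
      have : ⁅((x * y⁻¹ : G) : G ⧸ Subgroup.upperCentralSeries G i),
          (y : G ⧸ Subgroup.upperCentralSeries G i)⁆ = 1 := by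
        rw [← h1]; rfl
      exact (commutatorElement_eq_one_iff_mul_comm.mp this)
    have h2 := hc.mul_pow n
    have h3 : ((x * y⁻¹ : G) : G ⧸ Subgroup.upperCentralSeries G i) *
        (y : G ⧸ Subgroup.upperCentralSeries G i) = (x : G ⧸ Subgroup.upperCentralSeries G i) := by
      rw [← QuotientGroup.mk_mul]; simp
    rw [h3, ← QuotientGroup.mk_pow, hxy, QuotientGroup.mk_pow] at h2
    rw [← QuotientGroup.eq_one_iff, QuotientGroup.mk_pow]
    exact (mul_eq_right.mp h2.symm)

theorem Roots.commute {G : Type u} [Group G] (h : Roots G) {x y : G} {n : ℕ} (hn : 0 < n)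
    (hc : x ^ n * y = y * x ^ n) : x * y = y * x := by
  have h1 : (y * x * y⁻¹) ^ n = x ^ n := by
    rw [conj_pow, ← hc, mul_inv_cancel_right]
  have h2 := h _ _ n hn h1
  rw [mul_inv_eq_iff_eq_mul] at h2
  exact h2.symm

theorem Roots.tf (h : Roots G) : TF G := fun x n hn hx => h x 1 n hn (by rw [hx, one_pow])

end Basic

section Term

variable {G : Type u} [Group G]

/-- No proper isolated subgroup containing the commutators contains `X`. -/
def Term (G : Type u) [Group G] (X : Set G) : Prop :=
  ∀ N : Subgroup G, (∀ a b : G, ⁅a, b⁆ ∈ N) → (∀ x : G, ∀ n : ℕ, 0 < n → x ^ n ∈ N → x ∈ N) →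
    X ⊆ N → N = ⊤

theorem Term.map {H : Type v} [Group H] {X : Set G} (h : Term G X) (f : G →* H)
    (hf : Function.Surjective f) : Term H (f '' X) := by
  intro N h1 h2 h3
  have h4 : N.comap f = ⊤ := by
    apply h
    · intro a b
      rw [mem_comap, map_commutatorElement]
      exact h1 _ _
    · intro x n hn hx
      rw [mem_comap, map_pow] at hx
      exact h2 _ n hn hx
    · intro x hx
      exact h3 ⟨x, hx, rfl⟩
  rw [eq_top_iff]
  intro y _
  obtain ⟨x, rfl⟩ := hf y
  have : x ∈ N.comap f := by rw [h4]; trivial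
  exact this

theorem TermIn.term {K : Subgroup G} {X : Set G} (h : TermIn K X) :
    Term K (Subtype.val ⁻¹' X) := by
  intro N h1 h2 h3
  have h4 : K ≤ N.map K.subtype := by
    apply h.2
    · intro a ha b hb
      refine ⟨⁅(⟨a, ha⟩ : K), ⟨b, hb⟩⁆, h1 _ _, ?_⟩
      simp [commutatorElement_def]
    · rintro x hx n hn ⟨y, hy, hy'⟩
      refine ⟨⟨x, hx⟩, ?_, rfl⟩
      apply h2 _ n hn
      have : (⟨x, hx⟩ : K) ^ n = y := Subtype.ext (by simpa using hy'.symm)
      rw [this]
      exact hy
    · intro x hx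
      exact ⟨⟨x, h.1 hx⟩, h3 hx, rfl⟩
  rw [eq_top_iff]
  rintro ⟨x, hx⟩ _
  obtain ⟨y, hy, hy'⟩ := h4 hx
  have : y = ⟨x, hx⟩ := Subtype.ext hy'
  rw [← this]
  exact hy

/-- In a nilpotent torsion-free group rationally generated by `X`, commuting with `X` modulo
`Z_k` is commuting with everything modulo `Z_k`. -/
theorem mem_ucs_of_comm {X : Set G} (hT : Term G X) (hTF : TF G) (hnil : Group.IsNilpotent G)
    (k : ℕ) (z : G) (hz : ∀ x ∈ X, ⁅z, x⁆ ∈ Subgroup.upperCentralSeries G k) :
    z ∈ Subgroup.upperCentralSeries G (k + 1) := by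
  classical
  obtain ⟨m, hm⟩ := hnil.nilpotent'
  have hex : ∃ j, z ∈ Subgroup.upperCentralSeries G j := ⟨m, by rw [hm]; trivial⟩
  have hj := Nat.find_spec hex
  rcases le_or_gt (Nat.find hex) (k + 1) with hle | hgt
  · exact Subgroup.upperCentralSeries_mono G hle hj
  · exfalso
    obtain ⟨i, hi⟩ : ∃ i, Nat.find hex = i + 2 := ⟨Nat.find hex - 2, by omega⟩
    rw [hi] at hj hgt
    have hcen : ∀ y g : G, ⁅⁅z, y⁆, g⁆ ∈ Subgroup.upperCentralSeries G i := fun y g =>
      Subgroup.mem_upperCentralSeries_succ_iff.mp (Subgroup.mem_upperCentralSeries_succ_iff.mp hj y) g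
    have hN : commSub (Subgroup.upperCentralSeries G i) z = ⊤ := by
      apply hT
      · intro a b
        rw [mem_commSub]
        -- modulo `Z_i` conjugation by `z` multiplies by central elements
        rw [← QuotientGroup.eq_one_iff]
        have hq : ∀ y : G, ∃ c : G ⧸ Subgroup.upperCentralSeries G i,
            (∀ g : G ⧸ Subgroup.upperCentralSeries G i, Commute c g) ∧
            (z : G ⧸ Subgroup.upperCentralSeries G i) * y * (z : G ⧸ Subgroup.upperCentralSeries G i)⁻¹ = c * y := by
          intro y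
          refine ⟨((⁅z, y⁆ : G) : G ⧸ Subgroup.upperCentralSeries G i), ?_, ?_⟩
          · intro g
            induction g using QuotientGroup.induction_on with
            | H g =>
              have h1 := hcen y g
              rw [← QuotientGroup.eq_one_iff] at h1
              have : ⁅((⁅z, y⁆ : G) : G ⧸ Subgroup.upperCentralSeries G i),
                  (g : G ⧸ Subgroup.upperCentralSeries G i)⁆ = 1 := by
                rw [← h1]; rfl
              exact (commutatorElement_eq_one_iff_mul_comm.mp this)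
          · rw [← QuotientGroup.mk_mul, ← QuotientGroup.mk_inv, ← QuotientGroup.mk_mul,
              ← QuotientGroup.mk_mul]
            congr 1
            simp [commutatorElement_def, mul_assoc]
        obtain ⟨ca, hca, hca'⟩ := hq a
        obtain ⟨cb, hcb, hcb'⟩ := hq b
        have h5 : (z : G ⧸ Subgroup.upperCentralSeries G i) *
            ⁅(a : G ⧸ Subgroup.upperCentralSeries G i), (b : G ⧸ Subgroup.upperCentralSeries G i)⁆ *
            (z : G ⧸ Subgroup.upperCentralSeries G i)⁻¹ =
            ⁅(a : G ⧸ Subgroup.upperCentralSeries G i), (b : G ⧸ Subgroup.upperCentralSeries G i)⁆ := by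
          have e1 : (z : G ⧸ Subgroup.upperCentralSeries G i) *
            ⁅(a : G ⧸ Subgroup.upperCentralSeries G i), (b : G ⧸ Subgroup.upperCentralSeries G i)⁆ *
            (z : G ⧸ Subgroup.upperCentralSeries G i)⁻¹ =
            ⁅(z : G ⧸ Subgroup.upperCentralSeries G i) * a * (z : G ⧸ Subgroup.upperCentralSeries G i)⁻¹,
             (z : G ⧸ Subgroup.upperCentralSeries G i) * b * (z : G ⧸ Subgroup.upperCentralSeries G i)⁻¹⁆ := by
            simp [commutatorElement_def, mul_assoc]
          rw [e1, hca', hcb']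
          simp only [commutatorElement_def, mul_inv_rev]
          have A := (hca (b : G ⧸ Subgroup.upperCentralSeries G i)).eq
          have B := (hcb (a : G ⧸ Subgroup.upperCentralSeries G i)).eq
          have C := (hcb ca).eq
          calc ca * (a : G ⧸ Subgroup.upperCentralSeries G i) * (cb * b) *
                ((a : G ⧸ Subgroup.upperCentralSeries G i)⁻¹ * ca⁻¹) *
                ((b : G ⧸ Subgroup.upperCentralSeries G i)⁻¹ * cb⁻¹)
              = cb * ca * (a * b * (a : G ⧸ Subgroup.upperCentralSeries G i)⁻¹) * ca⁻¹ *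
                (b : G ⧸ Subgroup.upperCentralSeries G i)⁻¹ * cb⁻¹ := by
                  rw [mul_assoc ca _ (cb * _), ← mul_assoc _ cb, ← B]
                  simp only [mul_assoc]
                  rw [← mul_assoc ca cb, ← C]
                  simp only [mul_assoc]
            _ = (a : G ⧸ Subgroup.upperCentralSeries G i) * b * (a : G ⧸ Subgroup.upperCentralSeries G i)⁻¹ *
                (b : G ⧸ Subgroup.upperCentralSeries G i)⁻¹ := by
                  have h6 := (hca ((a : G ⧸ Subgroup.upperCentralSeries G i) * b *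
                    (a : G ⧸ Subgroup.upperCentralSeries G i)⁻¹)).eq
                  rw [mul_assoc cb ca, h6]
                  have h7 := (hcb ((a : G ⧸ Subgroup.upperCentralSeries G i) * b *
                    (a : G ⧸ Subgroup.upperCentralSeries G i)⁻¹ *
                    (b : G ⧸ Subgroup.upperCentralSeries G i)⁻¹)).eq
                  calc cb * ((a : G ⧸ Subgroup.upperCentralSeries G i) * b *
                        (a : G ⧸ Subgroup.upperCentralSeries G i)⁻¹ * ca) * ca⁻¹ *
                        (b : G ⧸ Subgroup.upperCentralSeries G i)⁻¹ * cb⁻¹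
                      = cb * ((a : G ⧸ Subgroup.upperCentralSeries G i) * b *
                        (a : G ⧸ Subgroup.upperCentralSeries G i)⁻¹ *
                        (b : G ⧸ Subgroup.upperCentralSeries G i)⁻¹) * cb⁻¹ := by group
                    _ = _ := by rw [h7]; group
        have h6 : ((⁅z, ⁅a, b⁆⁆ : G) : G ⧸ Subgroup.upperCentralSeries G i) =
            (z : G ⧸ Subgroup.upperCentralSeries G i) *
            ⁅(a : G ⧸ Subgroup.upperCentralSeries G i), (b : G ⧸ Subgroup.upperCentralSeries G i)⁆ *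
            (z : G ⧸ Subgroup.upperCentralSeries G i)⁻¹ *
            ⁅(a : G ⧸ Subgroup.upperCentralSeries G i), (b : G ⧸ Subgroup.upperCentralSeries G i)⁆⁻¹ := by
          rfl
        rw [h6, h5, mul_inv_cancel]
      · intro y n hn hy
        rw [mem_commSub] at hy ⊢
        apply ucs_isolated hTF i _ n hn (Subgroup.mem_upperCentralSeries_succ_iff.mp hj y)
        have h1 : ⁅y ^ n, z⁆ ∈ Subgroup.upperCentralSeries G i := by
          rw [← commutatorElement_inv]; exact inv_mem hy
        have h2 : ⁅y, z⁆ ^ n ∈ Subgroup.upperCentralSeries G i := by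
          have h3 : ∀ g, ⁅⁅y, z⁆, g⁆ ∈ Subgroup.upperCentralSeries G i := by
            intro g
            have h4 : ⁅y, z⁆ ∈ Subgroup.upperCentralSeries G (i + 1) := by
              rw [← commutatorElement_inv]
              exact inv_mem (Subgroup.mem_upperCentralSeries_succ_iff.mp hj y)
            exact Subgroup.mem_upperCentralSeries_succ_iff.mp h4 g
          exact comm_pow_mem (h3 _) (h3 _) n h1
        rw [← commutatorElement_inv, inv_pow]
        exact inv_mem h2
      · intro x hx
        rw [SetLike.mem_coe, mem_commSub]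
        exact Subgroup.upperCentralSeries_mono G (by omega) (hz x hx)
    apply Nat.find_min hex (m := i + 1) (by omega)
    rw [Subgroup.mem_upperCentralSeries_succ_iff]
    intro y
    rw [← mem_commSub, hN]
    trivial

/-- A nilpotent torsion-free group rationally generated by `X` has the class of the subgroup
generated by `X`. -/
theorem ucs_of_term {X : Set G} (hT : Term G X) (hTF : TF G) (hnil : Group.IsNilpotent G)
    (m : ℕ) (h : ∀ z ∈ lnc X m, z = 1) : Subgroup.upperCentralSeries G m = ⊤ := by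
  classical
  have key : ∀ j i : ℕ, i + j = m → ∀ z ∈ lnc X i, z ∈ Subgroup.upperCentralSeries G j := by
    intro j
    induction j with
    | zero =>
      intro i hi z hz
      rw [add_zero] at hi
      subst hi
      rw [h z hz]
      exact one_mem _
    | succ j ih =>
      intro i hi z hz
      apply mem_ucs_of_comm hT hTF hnil
      intro x hx
      exact ih (i + 1) (by omega) _ ⟨z, hz, x, hx, rfl⟩
  have hX : X ⊆ Subgroup.upperCentralSeries G m := fun x hx => key m 0 (by omega) x hx
  have hex : ∃ j, Subgroup.upperCentralSeries G j = ⊤ := hnil.nilpotent'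
  have hj := Nat.find_spec hex
  rcases le_or_gt (Nat.find hex) m with hle | hgt
  · rw [eq_top_iff, ← hj]
    exact Subgroup.upperCentralSeries_mono G hle
  · exfalso
    obtain ⟨i, hi⟩ : ∃ i, Nat.find hex = i + 1 := ⟨Nat.find hex - 1, by omega⟩
    rw [hi] at hj hgt
    apply Nat.find_min hex (m := i) (by omega)
    apply hT
    · intro a b
      have : a ∈ Subgroup.upperCentralSeries G (i + 1) := by rw [hj]; trivial
      exact Subgroup.mem_upperCentralSeries_succ_iff.mp this b
    · intro x n hn hx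
      exact ucs_isolated hTF i x n hn (by rw [hj]; trivial) hx
    · intro x hx
      exact Subgroup.upperCentralSeries_mono G (by omega) (hX hx)

end Term

end Pool.Agent.ConradOrders
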