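import Mathlib
import Pool.Agent.ConradOrders.Nilp

/-!
In a torsion-free nilpotent group rationally generated by `X`, the normal closure of an abelian
normal subgroup of the subgroup generated by `X` is abelian.
-/

namespace Pool.Agent.ConradOrders

universe u

open scoped commutatorElement

section Step

variable {Q : Type u} [Group Q]

/-- `⁅a, q b q⁻¹⁆`. -/
def cF (a b q : Q) : Q := ⁅a, q * b * q⁻¹⁆

theorem cF_right {a b q q' : Q} (h : ∀ g, Commute (cF a b q) g) :
    cF a b (q * q') = cF a ⁅q', b⁆ q * cF a b q := by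
  have e1 : q * q' * b * (q * q')⁻¹ = (q * ⁅q', b⁆ * q⁻¹) * (q * b * q⁻¹) := by
    simp [commutatorElement_def, mul_assoc]
  have e2 : ∀ x y : Q, ⁅a, x * y⁆ = ⁅a, x⁆ * (x * ⁅a, y⁆ * x⁻¹) := by
    intro x y
    simp [commutatorElement_def, mul_assoc]
  have h1 := (h (q * ⁅q', b⁆ * q⁻¹)).eq
  unfold cF at *
  rw [e1, e2, ← h1, mul_inv_cancel_right]

theorem cF_left {a b h q : Q} (h1 : ∀ g, Commute (cF a b q) g)
    (h2 : ∀ g, Commute (cF a b (h * q)) g) :
    cF a b (h * q) = cF a b q * cF ⁅h⁻¹, a⁆ b q := by
  have e1 : h⁻¹ * cF a b (h * q) * h = ⁅⁅h⁻¹, a⁆ * a, q * b * q⁻¹⁆ := by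
    simp [cF, commutatorElement_def, mul_assoc]
  have e2 : h⁻¹ * cF a b (h * q) * h = cF a b (h * q) := by
    rw [← (h2 h⁻¹).eq, inv_mul_cancel_right]
  have e3 : ∀ x y z : Q, ⁅x * y, z⁆ = (x * ⁅y, z⁆ * x⁻¹) * ⁅x, z⁆ := by
    intro x y z
    simp [commutatorElement_def, mul_assoc]
  rw [← e2, e1, e3]
  have h3 := (h1 ⁅h⁻¹, a⁆).eq
  unfold cF at *
  rw [← h3, mul_inv_cancel_right]

theorem cF_const {X : Set Q} (hTF : TF Q) (hT : Term Q X) :
    ∀ j : ℕ, ∀ a ∈ Subgroup.upperCentralSeries Q j, ∀ b : Q,
    (∀ q g, Commute (cF a b q) g) →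
    (∀ q, ∀ l ∈ Subgroup.closure X, cF a b (q * l) = cF a b q) → ∀ q, cF a b q = cF a b 1 := by
  intro j
  induction j with
  | zero =>
    intro a ha b _ _ q
    rw [Subgroup.upperCentralSeries_zero, Subgroup.mem_bot] at ha
    subst ha
    simp [cF]
  | succ j ih =>
    intro a ha b hcen hinv
    have key : ∀ h q, cF a b (h * q) = cF a b q * cF ⁅h⁻¹, a⁆ b 1 := by
      intro h q
      have h1 : ∀ q, cF a b (h * q) = cF a b q * cF ⁅h⁻¹, a⁆ b q := fun q =>
        cF_left (hcen q) (hcen (h * q))
      have h2 : ∀ q, cF ⁅h⁻¹, a⁆ b q = (cF a b q)⁻¹ * cF a b (h * q) := fun q => by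
        rw [h1 q]; group
      have h3 : ⁅h⁻¹, a⁆ ∈ Subgroup.upperCentralSeries Q j := by
        rw [← commutatorElement_inv]
        exact Subgroup.inv_mem _ (Subgroup.mem_upperCentralSeries_succ_iff.mp ha _)
      have h4 := ih _ h3 b
        (fun q g => by rw [h2]; exact ((hcen q g).inv_left).mul_left (hcen (h * q) g))
        (fun q l hl => by
          rw [h2, h2, hinv q l hl, ← mul_assoc, hinv (h * q) l hl])
      rw [h1, h4]
    have hval : ∀ h, cF ⁅h⁻¹, a⁆ b 1 = (cF a b 1)⁻¹ * cF a b h := by
      intro h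
      have := key h 1
      rw [mul_one] at this
      rw [this]; group
    let N : Subgroup Q :=
      { carrier := {h | cF a b h = cF a b 1}
        one_mem' := rfl
        mul_mem' := by
          intro x y hx hy
          change cF a b (x * y) = cF a b 1
          rw [key, hval, show cF a b x = cF a b 1 from hx, show cF a b y = cF a b 1 from hy]
          group
        inv_mem' := by
          intro x hx
          have h1 := key x x⁻¹
          rw [mul_inv_cancel, hval, show cF a b x = cF a b 1 from hx, inv_mul_cancel,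
            mul_one] at h1
          exact h1.symm }
    have hmul : ∀ x y, cF a b (x * y) = cF a b x * cF a b y * (cF a b 1)⁻¹ := by
      intro x y
      rw [key, hval]
      have h1 := (hcen y (cF a b x)).eq
      have h2 := (hcen 1 (cF a b x)).eq
      have h3 := ((hcen 1 (cF a b x)).inv_left).eq
      rw [h3, ← mul_assoc, h1]
    have hNtop : N = ⊤ := by
      apply hT
      · intro x y
        change cF a b ⁅x, y⁆ = cF a b 1
        have h1 : cF a b (x * y) = cF a b (⁅x, y⁆ * (y * x)) := by
          congr 1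
          simp [commutatorElement_def, mul_assoc]
        rw [hmul ⁅x, y⁆, hmul, hmul y x] at h1
        have hc := (hcen y (cF a b x)).eq
        rw [hc] at h1
        have h2 : cF a b x * cF a b y * (cF a b 1)⁻¹ = cF a b ⁅x, y⁆ * (cF a b x * cF a b y *
            (cF a b 1)⁻¹) * (cF a b 1)⁻¹ := h1
        have h3 := congrArg (fun t => t * (cF a b x * cF a b y * (cF a b 1)⁻¹)⁻¹) h2
        simp only [mul_inv_cancel] at h3
        have h4 := ((hcen 1 (cF a b x * cF a b y * (cF a b 1)⁻¹)).inv_left).eq
        rw [mul_assoc (cF a b ⁅x, y⁆), ← h4, ← mul_assoc, mul_inv_cancel_right] at h3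
        exact (mul_inv_eq_one.mp h3.symm)
      · intro x n hn hx
        change cF a b x = cF a b 1
        have hpow : ∀ n : ℕ, cF a b (x ^ n) * (cF a b 1)⁻¹ = (cF a b x * (cF a b 1)⁻¹) ^ n := by
          intro n
          induction n with
          | zero => simp
          | succ n ihn =>
            rw [pow_succ x, hmul, pow_succ, ← ihn]
            have h4 := ((hcen 1 (cF a b x)).inv_left).eq
            simp only [mul_assoc]
            rw [← mul_assoc (cF a b 1)⁻¹ (cF a b x), h4, mul_assoc]
        have h1 := hpow n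
        rw [show cF a b (x ^ n) = cF a b 1 from hx, mul_inv_cancel] at h1
        exact mul_inv_eq_one.mp (hTF _ n hn h1.symm)
      · intro x hx
        change cF a b x = cF a b 1
        have := hinv 1 x (Subgroup.subset_closure hx)
        rwa [one_mul] at this
    intro q
    have : q ∈ N := by rw [hNtop]; trivial
    exact this

theorem cF_trivial {X : Set Q} (hTF : TF Q) (hnil : Group.IsNilpotent Q) (hT : Term Q X) :
    ∀ j : ℕ, ∀ b ∈ Subgroup.upperCentralSeries Q j, ∀ a : Q,
    (∀ q g, Commute (cF a b q) g) →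
    (∀ l ∈ Subgroup.closure X, cF a b l = 1) → ∀ q, cF a b q = 1 := by
  intro j
  induction j with
  | zero =>
    intro b hb a _ _ q
    rw [Subgroup.upperCentralSeries_zero, Subgroup.mem_bot] at hb
    subst hb
    simp [cF]
  | succ j ih =>
    intro b hb a hcen hL
    have hinv : ∀ q, ∀ l ∈ Subgroup.closure X, cF a b (q * l) = cF a b q := by
      intro q l hl
      have h1 : ∀ q, cF a b (q * l) = cF a ⁅l, b⁆ q * cF a b q := fun q => cF_right (hcen q)
      have h2 : ∀ q, cF a ⁅l, b⁆ q = cF a b (q * l) * (cF a b q)⁻¹ := fun q => by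
        rw [h1 q]; group
      have h3 : ⁅l, b⁆ ∈ Subgroup.upperCentralSeries Q j := by
        rw [← commutatorElement_inv]
        exact Subgroup.inv_mem _ (Subgroup.mem_upperCentralSeries_succ_iff.mp hb _)
      have h4 := ih _ h3 a
        (fun q g => by rw [h2]; exact (hcen (q * l) g).mul_left ((hcen q g).inv_left))
        (fun l' hl' => by
          rw [h2, hL _ (Subgroup.mul_mem _ hl' hl), hL _ hl', inv_one, mul_one])
      rw [h1, h4, one_mul]
    obtain ⟨m, hm⟩ := hnil.nilpotent'
    intro q
    rw [cF_const hTF hT m a (by rw [hm]; trivial) b hcen hinv q]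
    exact hL 1 (Subgroup.one_mem _)

end Step

/-- The normal closure of an abelian subgroup normalised by `X` is abelian. -/
theorem comm_conj_of_term {Q : Type u} [Group Q] {X : Set Q} (hTF : TF Q)
    (hnil : Group.IsNilpotent Q) (hT : Term Q X) (A : Subgroup Q)
    (hA : ∀ a ∈ A, ∀ b ∈ A, a * b = b * a)
    (hn : ∀ l ∈ Subgroup.closure X, ∀ a ∈ A, l * a * l⁻¹ ∈ A) (a b q : Q) (ha : a ∈ A)
    (hb : b ∈ A) : cF a b q = 1 := by
  obtain ⟨m, hm⟩ := hnil.nilpotent'
  have key : ∀ j : ℕ, j ≤ m → ∀ q, cF a b q ∈ Subgroup.upperCentralSeries Q (m - j) := by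
    intro j
    induction j with
    | zero => intro _ q; rw [Nat.sub_zero, hm]; trivial
    | succ j ih =>
      intro hj q
      set Z := Subgroup.upperCentralSeries Q (m - (j + 1)) with hZ
      have hind : ∀ q, cF a b q ∈ Subgroup.upperCentralSeries Q (m - (j + 1) + 1) := by
        intro q
        have e : m - (j + 1) + 1 = m - j := by omega
        rw [e]
        exact ih (by omega) q
      have hTF' : TF (Q ⧸ Z) := by
        intro x n hn' hx
        induction x using QuotientGroup.induction_on with
        | H x =>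
          rw [← QuotientGroup.mk_pow, QuotientGroup.eq_one_iff] at hx
          rw [QuotientGroup.eq_one_iff]
          exact ucs_isolated' hTF hnil _ x n hn' hx
      have hT' := hT.map (QuotientGroup.mk' Z) (QuotientGroup.mk'_surjective Z)
      have hnil' : Group.IsNilpotent (Q ⧸ Z) := inferInstance
      have hcoe : ∀ q : Q, cF (a : Q ⧸ Z) (b : Q ⧸ Z) (q : Q ⧸ Z) = ((cF a b q : Q) : Q ⧸ Z) :=
        fun q => rfl
      obtain ⟨m', hm'⟩ := hnil'.nilpotent'
      have h1 := cF_trivial hTF' hnil' hT' m' (b : Q ⧸ Z) (by rw [hm']; trivial) (a : Q ⧸ Z)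
        (by
          intro q g
          induction q using QuotientGroup.induction_on with
          | H q =>
            induction g using QuotientGroup.induction_on with
            | H g =>
              rw [hcoe]
              have h2 := Subgroup.mem_upperCentralSeries_succ_iff.mp (hind q) g
              rw [← QuotientGroup.eq_one_iff] at h2
              exact commutatorElement_eq_one_iff_mul_comm.mp h2)
        (by
          intro l hl
          rw [← MonoidHom.map_closure] at hl
          obtain ⟨l', hl', rfl⟩ := hl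
          change cF (a : Q ⧸ Z) (b : Q ⧸ Z) (l' : Q ⧸ Z) = 1
          rw [hcoe]
          have : cF a b l' = 1 :=
            commutatorElement_eq_one_iff_mul_comm.mpr (hA a ha _ (hn l' hl' b hb))
          rw [this]; rfl)
        (q : Q ⧸ Z)
      rw [hcoe, QuotientGroup.eq_one_iff] at h1
      exact h1
  have := key m le_rfl q
  rw [Nat.sub_self, Subgroup.upperCentralSeries_zero, Subgroup.mem_bot] at this
  exact this

end Pool.Agent.ConradOrders
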