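import Mathlib

/-!
A transcendental eigenfunctional.
-/

namespace Pool.Agent.ConradOrders

universe u v

open Polynomial

/-- A polynomial divides a nonzero polynomial in `X ^ m`. -/
theorem exists_dvd_expand (p : ℤ[X]) (hp : p ≠ 0) (m : ℕ) :
    ∃ q : ℤ[X], q ≠ 0 ∧ p ∣ expand ℤ m q := by
  have hinj : Function.Injective (algebraMap ℤ ℚ) := (algebraMap ℤ ℚ).injective_int
  set p' : ℚ[X] := p.map (algebraMap ℤ ℚ) with hp'
  have hp'0 : p' ≠ 0 := by
    rw [hp', Ne, Polynomial.map_eq_zero_iff hinj]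
    exact hp
  have hfin : Module.Finite ℚ (AdjoinRoot p') := (AdjoinRoot.powerBasis hp'0).finite
  have hint : IsIntegral ℚ ((AdjoinRoot.root p') ^ m) := IsIntegral.of_finite ℚ _
  set q : ℚ[X] := minpoly ℚ ((AdjoinRoot.root p') ^ m) with hq
  have hq0 : q ≠ 0 := minpoly.ne_zero hint
  have hdvd : p' ∣ expand ℚ m q := by
    rw [← AdjoinRoot.mk_eq_zero, ← AdjoinRoot.aeval_eq, expand_aeval]
    exact minpoly.aeval _ _
  obtain ⟨r, hr⟩ := hdvd
  obtain ⟨b1, hb1m, hb1⟩ := IsLocalization.integerNormalization_spec (nonZeroDivisors ℤ) q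
  obtain ⟨b2, hb2m, hb2⟩ := IsLocalization.integerNormalization_spec (nonZeroDivisors ℤ) r
  set q1 := IsLocalization.integerNormalization (nonZeroDivisors ℤ) q with hq1
  set r1 := IsLocalization.integerNormalization (nonZeroDivisors ℤ) r with hr1
  have hb10 : (b1 : ℤ) ≠ 0 := nonZeroDivisors.ne_zero hb1m
  have hb20 : (b2 : ℤ) ≠ 0 := nonZeroDivisors.ne_zero hb2m
  have e1 : q1.map (algebraMap ℤ ℚ) = C ((b1 : ℤ) : ℚ) * q := by
    rw [hb1, Algebra.smul_def]; rfl
  have e2 : r1.map (algebraMap ℤ ℚ) = C ((b2 : ℤ) : ℚ) * r := by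
    rw [hb2, Algebra.smul_def]; rfl
  refine ⟨C (b2 : ℤ) * q1, ?_, C (b1 : ℤ) * r1, ?_⟩
  · intro h
    have h1 := congrArg (Polynomial.map (algebraMap ℤ ℚ)) h
    rw [Polynomial.map_mul, Polynomial.map_C, e1, Polynomial.map_zero, mul_eq_zero,
      mul_eq_zero] at h1
    rcases h1 with h1 | h1 | h1
    · rw [C_eq_zero, eq_intCast] at h1
      exact hb20 (by exact_mod_cast h1)
    · rw [C_eq_zero] at h1
      exact hb10 (by exact_mod_cast h1)
    · exact hq0 h1
  · apply Polynomial.map_injective (algebraMap ℤ ℚ) hinj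
    rw [Polynomial.map_mul, Polynomial.map_mul, Polynomial.map_C, e2, map_expand,
      Polynomial.map_mul, Polynomial.map_C, e1]
    rw [map_mul, map_mul, expand_C, expand_C, hr]
    simp only [hp', eq_intCast]
    ring

/-- Existence of a transcendental eigenfunctional. -/
theorem exists_ell {V : Type u} [AddCommGroup V] (τ : AddMonoid.End V) (b : V)
    (h : ∀ p : ℤ[X], p ≠ 0 → (aeval τ p) b ≠ 0) (l : ℝ) (hl : Transcendental ℤ l) :
    ∃ ell : V →+ ℝ, (∀ v, ell (τ v) = l * ell v) ∧ ell b = 1 := by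
  let _ : Module ℤ[X] V := Module.compHom V (aeval τ : ℤ[X] →ₐ[ℤ] AddMonoid.End V).toRingHom
  let _ : Module ℤ[X] ℝ := Module.compHom ℝ (aeval l : ℤ[X] →ₐ[ℤ] ℝ).toRingHom
  have hsV : ∀ (p : ℤ[X]) (v : V), p • v = (aeval τ p) v := fun _ _ => rfl
  have hsR : ∀ (p : ℤ[X]) (x : ℝ), p • x = (aeval l p) * x := fun _ _ => rfl
  have hBaer : Module.Baer ℤ[X] ℝ := by
    intro I g
    by_cases hI : ∃ r ∈ I, r ≠ 0
    · obtain ⟨r, hr, hr0⟩ := hI
      have hne : aeval l r ≠ 0 := fun h0 => hr0 (transcendental_iff.mp hl r h0)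
      refine ⟨{ toFun := fun x => aeval l x * (g ⟨r, hr⟩ / aeval l r)
                map_add' := fun x y => by rw [map_add]; ring
                map_smul' := fun x y => by
                  rw [hsR, smul_eq_mul, map_mul, RingHom.id_apply]; ring }, ?_⟩
      intro x hx
      change aeval l x * (g ⟨r, hr⟩ / aeval l r) = g ⟨x, hx⟩
      have h1 : aeval l r * g ⟨x, hx⟩ = aeval l x * g ⟨r, hr⟩ := by
        rw [← hsR, ← hsR, ← g.map_smul, ← g.map_smul]
        congr 1
        apply Subtype.ext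
        change r • x = x • r
        rw [smul_eq_mul, smul_eq_mul, mul_comm]
      field_simp
      linarith
    · push Not at hI
      refine ⟨0, fun x hx => ?_⟩
      have : (⟨x, hx⟩ : I) = 0 := Subtype.ext (hI x hx)
      rw [this, map_zero, LinearMap.zero_apply]
  obtain ⟨g, hg⟩ := hBaer.extension_property (LinearMap.toSpanSingleton ℤ[X] V b)
    (by
      rw [injective_iff_map_eq_zero]
      intro p hp
      by_contra hp0
      exact h p hp0 (by rw [LinearMap.toSpanSingleton_apply] at hp; exact hp))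
    (LinearMap.toSpanSingleton ℤ[X] ℝ 1)
  refine ⟨g.toAddMonoidHom, fun v => ?_, ?_⟩
  · change g (τ v) = l * g v
    have e : τ v = (X : ℤ[X]) • v := by rw [hsV, aeval_X]
    rw [e, g.map_smul, hsR, aeval_X]
  · change g b = 1
    have h1 := LinearMap.congr_fun hg 1
    rw [LinearMap.comp_apply, LinearMap.toSpanSingleton_apply, one_smul,
      LinearMap.toSpanSingleton_apply, one_smul] at h1
    exact h1

theorem exists_transcendental : ∃ l : ℝ, 3 < l ∧ Transcendental ℤ l := by
  have hx : Transcendental ℤ (liouvilleNumber (2 : ℕ)) := transcendental_liouvilleNumber le_rfl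
  set x : ℝ := liouvilleNumber (2 : ℕ) with hxdef
  refine ⟨x + (⌈4 - x⌉ : ℤ), ?_, ?_⟩
  · have := Int.le_ceil (4 - x)
    linarith
  · intro halg
    apply hx
    have h1 : IsAlgebraic ℤ ((⌈4 - x⌉ : ℤ) : ℝ) := isAlgebraic_intCast _
    have h2 := halg.sub h1
    rwa [add_sub_cancel_right] at h2

end Pool.Agent.ConradOrders
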