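import Mathlib
import Pool.Agent.ConradOrders.Nilp

/-!
Finitely generated nilpotent groups of locally unipotent automorphisms.
-/

namespace Pool.Agent.ConradOrders

universe u v

open scoped commutatorElement

section Mod

variable {F : Type u} [Group F]

local instance : Inhabited F := ⟨1⟩

theorem smul_comm_of_gen {V : Type v} [AddCommGroup V] [Module (MonoidAlgebra ℤ F) V] (z : F)
    (hz : ∀ f : F, ∀ v : V, MonoidAlgebra.of ℤ F z • MonoidAlgebra.of ℤ F f • v =
      MonoidAlgebra.of ℤ F f • MonoidAlgebra.of ℤ F z • v) (r : MonoidAlgebra ℤ F) :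
    ∀ v : V, MonoidAlgebra.of ℤ F z • r • v = r • MonoidAlgebra.of ℤ F z • v := by
  induction r using MonoidAlgebra.induction_on with
  | of f => exact hz f
  | add a b ha hb =>
    intro v
    rw [add_smul, smul_add, ha, hb, add_smul]
  | smul n a ha =>
    intro v
    rw [zsmul_eq_mul, mul_smul, mul_smul, ← ha]
    have : ∀ w : V, ((n : ℤ) : MonoidAlgebra ℤ F) • w = n • w := fun w => Int.cast_smul_eq_zsmul _ n w
    rw [this, this, smul_comm]

/-- A nonzero module over a finitely generated nilpotent group acting by locally unipotent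
automorphisms has nonzero fixed vectors. -/
theorem exists_fixed {X : Set F} (hXf : X.Finite) (hgen : Subgroup.closure X = ⊤) :
    ∀ c : ℕ, ∀ (V : Type v) [AddCommGroup V] [Module (MonoidAlgebra ℤ F) V],
    (∀ z ∈ lnc X c, ∀ v : V, MonoidAlgebra.of ℤ F z • v = v) →
    (∀ f : F, ∀ v : V, ∃ k : ℕ, (MonoidAlgebra.of ℤ F f - 1) ^ k • v = 0) →
    (∃ v : V, v ≠ 0) → ∃ v : V, v ≠ 0 ∧ ∀ s ∈ X, MonoidAlgebra.of ℤ F s • v = v := by
  intro c
  induction c with
  | zero =>
    intro V _ _ h1 _ ⟨v, hv⟩
    exact ⟨v, hv, fun s hs => h1 s hs v⟩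
  | succ c ih =>
    intro V _ _ h1 h2 ⟨v₀, hv₀⟩
    have hcomm : ∀ z ∈ lnc X c, ∀ r : MonoidAlgebra ℤ F, ∀ v : V,
        MonoidAlgebra.of ℤ F z • r • v = r • MonoidAlgebra.of ℤ F z • v := by
      intro z hz
      apply smul_comm_of_gen
      intro f
      have hf : f ∈ Subgroup.closure X := by rw [hgen]; trivial
      induction hf using Subgroup.closure_induction with
      | mem x hx =>
        intro v
        have h3 := h1 ⁅z, x⁆ ⟨z, hz, x, hx, rfl⟩
          (MonoidAlgebra.of ℤ F x • MonoidAlgebra.of ℤ F z • v)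
        have e : MonoidAlgebra.of ℤ F z • MonoidAlgebra.of ℤ F x • v =
            MonoidAlgebra.of ℤ F ⁅z, x⁆ • MonoidAlgebra.of ℤ F x • MonoidAlgebra.of ℤ F z • v := by
          rw [← mul_smul, ← mul_smul, ← mul_smul, ← map_mul, ← map_mul, ← map_mul]
          congr 2
          simp [commutatorElement_def, mul_assoc]
        rw [e, h3]
      | one => intro v; rw [map_one, one_smul, one_smul]
      | mul a b _ _ ha hb =>
        intro v
        rw [map_mul, mul_smul, ha, hb, mul_smul]
      | inv a _ ha =>
        intro v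
        have h3 := ha (MonoidAlgebra.of ℤ F a⁻¹ • v)
        rw [← mul_smul (MonoidAlgebra.of ℤ F a), ← map_mul, mul_inv_cancel, map_one,
          one_smul] at h3
        rw [h3, ← mul_smul (MonoidAlgebra.of ℤ F a⁻¹), ← map_mul, inv_mul_cancel, map_one,
          one_smul]
    let W : Submodule (MonoidAlgebra ℤ F) V :=
      { carrier := {v | ∀ z ∈ lnc X c, MonoidAlgebra.of ℤ F z • v = v}
        add_mem' := by
          intro a b ha hb z hz
          rw [smul_add, ha z hz, hb z hz]
        zero_mem' := fun z _ => smul_zero _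
        smul_mem' := by
          intro r v hv z hz
          rw [hcomm z hz, hv z hz] }
    have hW : ∃ w : V, w ≠ 0 ∧ ∀ z ∈ lnc X c, MonoidAlgebra.of ℤ F z • w = w := by
      have hfin := lnc_finite hXf c
      have key : ∀ Z : Set F, Z.Finite → Z ⊆ lnc X c →
          ∃ w : V, w ≠ 0 ∧ ∀ z ∈ Z, MonoidAlgebra.of ℤ F z • w = w := by
        intro Z hZ
        induction Z, hZ using Set.Finite.induction_on with
        | empty => exact fun _ => ⟨v₀, hv₀, fun z hz => absurd hz (Set.notMem_empty z)⟩
        | @insert z Z _ _ ihZ =>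
          intro hsub
          obtain ⟨w, hw, hw'⟩ := ihZ (fun x hx => hsub (Set.mem_insert_of_mem _ hx))
          classical
          have hex := h2 z w
          have hk := Nat.find_spec hex
          have hpos : Nat.find hex ≠ 0 := by
            intro h0
            rw [h0, pow_zero, one_smul] at hk
            exact hw hk
          obtain ⟨i, hi⟩ := Nat.exists_eq_succ_of_ne_zero hpos
          refine ⟨(MonoidAlgebra.of ℤ F z - 1) ^ i • w, ?_, ?_⟩
          · exact Nat.find_min hex (m := i) (by omega)
          · intro y hy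
            rcases Set.mem_insert_iff.mp hy with rfl | hy
            · rw [hi, pow_succ', mul_smul, sub_smul, one_smul, sub_eq_zero] at hk
              exact hk
            · rw [hcomm y (hsub (Set.mem_insert_of_mem _ hy)), hw' y hy]
      exact key _ hfin subset_rfl
    obtain ⟨w, hw, hw'⟩ := hW
    obtain ⟨v, hv, hv'⟩ := ih W (fun z hz v => Subtype.ext (v.2 z hz))
      (fun f v => by
        obtain ⟨k, hk⟩ := h2 f v
        exact ⟨k, Subtype.ext hk⟩)
      ⟨⟨w, hw'⟩, fun h => hw (congrArg Subtype.val h)⟩
    exact ⟨v, fun h => hv (Subtype.ext h), fun s hs => congrArg Subtype.val (hv' s hs)⟩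

/-- The upper fixed point series of a module. -/
noncomputable def fixSeries (F : Type u) [Group F] (V : Type v) [AddCommGroup V]
    [Module (MonoidAlgebra ℤ F) V] : ℕ → Submodule (MonoidAlgebra ℤ F) V
  | 0 => ⊥
  | M + 1 =>
    { carrier := {v | ∀ f : F, (MonoidAlgebra.of ℤ F f - 1) • v ∈ fixSeries F V M}
      add_mem' := by
        intro a b ha hb f
        rw [smul_add]
        exact (fixSeries F V M).add_mem (ha f) (hb f)
      zero_mem' := fun f => by rw [smul_zero]; exact (fixSeries F V M).zero_mem
      smul_mem' := by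
        intro r v hv
        induction r using MonoidAlgebra.induction_on with
        | of g =>
          intro f
          have : (MonoidAlgebra.of ℤ F f - 1) * MonoidAlgebra.of ℤ F g =
              MonoidAlgebra.of ℤ F g * (MonoidAlgebra.of ℤ F (g⁻¹ * f * g) - 1) := by
            rw [sub_mul, mul_sub, ← map_mul, ← map_mul, one_mul, mul_one]
            congr 2
            group
          rw [← mul_smul, this, mul_smul]
          exact (fixSeries F V M).smul_mem _ (hv _)
        | add a b ha hb =>
          intro f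
          rw [add_smul, smul_add]
          exact (fixSeries F V M).add_mem (ha f) (hb f)
        | smul n a ha =>
          intro f
          have e : (n • a) • v = n • (a • v) := smul_assoc n a v
          rw [e, smul_comm]
          exact zsmul_mem (ha f) n }

theorem mem_fixSeries_succ {V : Type v} [AddCommGroup V] [Module (MonoidAlgebra ℤ F) V] {M : ℕ}
    {v : V} : v ∈ fixSeries F V (M + 1) ↔
      ∀ f : F, (MonoidAlgebra.of ℤ F f - 1) • v ∈ fixSeries F V M := Iff.rfl

theorem fixSeries_mono {V : Type v} [AddCommGroup V] [Module (MonoidAlgebra ℤ F) V] :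
    Monotone (fixSeries F V) := by
  apply monotone_nat_of_le_succ
  intro M v hv
  rw [mem_fixSeries_succ]
  intro f
  exact (fixSeries F V M).smul_mem _ hv

theorem mem_fixSeries_of_gen {V : Type v} [AddCommGroup V] [Module (MonoidAlgebra ℤ F) V]
    {X : Set F} (hgen : Subgroup.closure X = ⊤) {M : ℕ} {v : V}
    (h : ∀ x ∈ X, (MonoidAlgebra.of ℤ F x - 1) • v ∈ fixSeries F V M) :
    v ∈ fixSeries F V (M + 1) := by
  rw [mem_fixSeries_succ]
  intro f
  have hf : f ∈ Subgroup.closure X := by rw [hgen]; trivial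
  induction hf using Subgroup.closure_induction with
  | mem x hx => exact h x hx
  | one => rw [map_one, sub_self, zero_smul]; exact (fixSeries F V M).zero_mem
  | mul a b _ _ ha hb =>
    have : MonoidAlgebra.of ℤ F (a * b) - 1 = MonoidAlgebra.of ℤ F a *
        (MonoidAlgebra.of ℤ F b - 1) + (MonoidAlgebra.of ℤ F a - 1) := by
      rw [mul_sub, ← map_mul, mul_one]; abel
    rw [this, add_smul, mul_smul]
    exact (fixSeries F V M).add_mem ((fixSeries F V M).smul_mem _ hb) ha
  | inv a _ ha =>
    have : MonoidAlgebra.of ℤ F a⁻¹ - 1 = -(MonoidAlgebra.of ℤ F a⁻¹ *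
        (MonoidAlgebra.of ℤ F a - 1)) := by
      rw [mul_sub, ← map_mul, mul_one, inv_mul_cancel, map_one]; abel
    rw [this, neg_smul, mul_smul]
    exact (fixSeries F V M).neg_mem ((fixSeries F V M).smul_mem _ ha)

theorem exists_mem_fixSeries {X : Set F} (hXf : X.Finite) (hgen : Subgroup.closure X = ⊤)
    (c : ℕ) (V : Type v) [AddCommGroup V] [Module (MonoidAlgebra ℤ F) V]
    (h1 : ∀ z ∈ lnc X c, ∀ v : V, MonoidAlgebra.of ℤ F z • v = v)
    (h2 : ∀ f : F, ∀ v : V, ∃ k : ℕ, (MonoidAlgebra.of ℤ F f - 1) ^ k • v = 0) (v : V) :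
    ∃ M, v ∈ fixSeries F V M := by
  classical
  let U : Submodule (MonoidAlgebra ℤ F) V :=
    { carrier := {v | ∃ M, v ∈ fixSeries F V M}
      add_mem' := by
        rintro a b ⟨M, hM⟩ ⟨N, hN⟩
        exact ⟨max M N, (fixSeries F V _).add_mem (fixSeries_mono (le_max_left M N) hM)
          (fixSeries_mono (le_max_right M N) hN)⟩
      zero_mem' := ⟨0, (fixSeries F V 0).zero_mem⟩
      smul_mem' := by
        rintro r v ⟨M, hM⟩
        exact ⟨M, (fixSeries F V M).smul_mem r hM⟩ }
  by_contra hcon
  have hvU : v ∉ U := hcon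
  obtain ⟨w, hw, hw'⟩ := exists_fixed hXf hgen c (V ⧸ U)
    (by
      intro z hz q
      induction q using Submodule.Quotient.induction_on with
      | _ q =>
        rw [← Submodule.Quotient.mk_smul, h1 z hz q])
    (by
      intro f q
      induction q using Submodule.Quotient.induction_on with
      | _ q =>
        obtain ⟨k, hk⟩ := h2 f q
        exact ⟨k, by rw [← Submodule.Quotient.mk_smul, hk, Submodule.Quotient.mk_zero]⟩)
    ⟨Submodule.Quotient.mk v, fun h => hvU ((Submodule.Quotient.mk_eq_zero U).mp h)⟩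
  induction w using Submodule.Quotient.induction_on with
  | _ w =>
    have hwU : w ∉ U := fun h => hw ((Submodule.Quotient.mk_eq_zero U).mpr h)
    have h3 : ∀ x ∈ X, ∃ M, (MonoidAlgebra.of ℤ F x - 1) • w ∈ fixSeries F V M := by
      intro x hx
      have h4 := hw' x hx
      rw [← Submodule.Quotient.mk_smul, Submodule.Quotient.eq] at h4
      obtain ⟨M, hM⟩ := h4
      exact ⟨M, by rw [sub_smul, one_smul]; exact hM⟩
    choose! M hM using h3
    obtain ⟨N, hN⟩ := (hXf.image M).bddAbove
    apply hwU
    exact ⟨N + 1, mem_fixSeries_of_gen hgen (fun x hx =>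
      fixSeries_mono (hN ⟨x, hx, rfl⟩) (hM x hx))⟩

end Mod

section Conj

open scoped IsMulCommutative

variable {H : Type u} [Group H]

/-- Conjugation on an abelian normal subgroup, written additively. -/
def cj (A : Subgroup H) [hn : A.Normal] [IsMulCommutative A] : H →* AddMonoid.End (Additive A) where
  toFun h :=
    { toFun := fun a => Additive.ofMul ⟨h * (a.toMul : H) * h⁻¹, hn.conj_mem _ a.toMul.2 h⟩
      map_zero' := by
        apply Additive.toMul.injective
        apply Subtype.ext
        simp
      map_add' := by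
        intro a b
        apply Additive.toMul.injective
        apply Subtype.ext
        simp [mul_assoc] }
  map_one' := AddMonoidHom.ext fun a => Additive.toMul.injective (Subtype.ext (by
    change 1 * (a.toMul : H) * 1⁻¹ = a.toMul
    simp))
  map_mul' := fun g h => AddMonoidHom.ext fun a => Additive.toMul.injective (Subtype.ext (by
    change g * h * (a.toMul : H) * (g * h)⁻¹ = g * (h * (a.toMul : H) * h⁻¹) * g⁻¹
    simp [mul_assoc]))

theorem cj_val (A : Subgroup H) [hn : A.Normal] [IsMulCommutative A] (h : H) (a : Additive A) :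
    ((cj A h a).toMul : H) = h * (a.toMul : H) * h⁻¹ := rfl

theorem cj_of_mem (A : Subgroup H) [hn : A.Normal] [IsMulCommutative A] {h : H} (hh : h ∈ A) :
    cj A h = 1 := by
  ext a
  have : (⟨h, hh⟩ : A) * a.toMul = a.toMul * ⟨h, hh⟩ := mul_comm _ _
  have h2 : h * (a.toMul : H) = (a.toMul : H) * h := congrArg Subtype.val this
  rw [cj_val, h2, mul_inv_cancel_right]
  rfl

theorem lnc_trivial (A : Subgroup H) [hn : A.Normal] [IsMulCommutative A] {X : Set H}
    (hXf : X.Finite) (c : ℕ) (hc : ∀ z ∈ lnc X c, z ∈ A)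
    (hun : ∀ t ∈ Subgroup.closure X, ∀ a : Additive A, ∃ k : ℕ, ((cj A t - 1) ^ k) a = 0) :
    ∃ m, ∀ z ∈ lnc X m, z = 1 := by
  classical
  let F := Subgroup.closure X
  let XF : Set F := Subtype.val ⁻¹' X
  have hXF : XF.Finite := hXf.preimage Subtype.val_injective.injOn
  have hgen : Subgroup.closure XF = ⊤ := Subgroup.closure_closure_coe_preimage
  have himg : F.subtype '' XF = X := by
    ext x
    constructor
    · rintro ⟨y, hy, rfl⟩; exact hy
    · intro hx; exact ⟨⟨x, Subgroup.subset_closure hx⟩, hx, rfl⟩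
  let φ : MonoidAlgebra ℤ F →+* AddMonoid.End (Additive A) :=
    (MonoidAlgebra.lift ℤ (AddMonoid.End (Additive A)) F ((cj A).comp F.subtype)).toRingHom
  let _ : Module (MonoidAlgebra ℤ F) (Additive A) := Module.compHom _ φ
  have hsm : ∀ (r : MonoidAlgebra ℤ F) (v : Additive A), r • v = φ r v := fun _ _ => rfl
  have hφ : ∀ f : F, φ (MonoidAlgebra.of ℤ F f) = cj A (f : H) := by
    intro f
    exact MonoidAlgebra.lift_of _ _
  have key := exists_mem_fixSeries hXF hgen c (Additive A)
    (by
      intro z hz v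
      rw [hsm, hφ, cj_of_mem A (h := (z : H))]
      · rfl
      · apply hc
        have := map_mem_lnc F.subtype XF c z hz
        rw [himg] at this
        exact this)
    (by
      intro f v
      obtain ⟨k, hk⟩ := hun f f.2 v
      refine ⟨k, ?_⟩
      rw [hsm, map_pow, map_sub, hφ, map_one]
      exact hk)
  -- a common level for the finitely many commutators of weight `c + 1`
  have hfin := lnc_finite hXf c
  choose M hM using key
  obtain ⟨N, hN⟩ := (hfin.image (fun z => if hz : z ∈ A then M (Additive.ofMul ⟨z, hz⟩) else 0)).bddAbove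
  have hlev : ∀ j : ℕ, j ≤ N → ∀ z ∈ lnc X (c + j), ∃ hz : z ∈ A,
      Additive.ofMul (⟨z, hz⟩ : A) ∈ fixSeries F (Additive A) (N - j) := by
    intro j
    induction j with
    | zero =>
      intro _ z hz
      have hzA := hc z hz
      refine ⟨hzA, ?_⟩
      have h1 := hN ⟨z, hz, rfl⟩
      dsimp only at h1
      rw [dif_pos hzA] at h1
      exact fixSeries_mono h1 (hM _)
    | succ j ih =>
      rintro hj z ⟨u, hu, x, hx, rfl⟩
      obtain ⟨huA, hu'⟩ := ih (by omega) u hu
      have hzA : ⁅u, x⁆ ∈ A := by
        have : ⁅u, x⁆ = u * (x * u⁻¹ * x⁻¹) := by simp [commutatorElement_def, mul_assoc]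
        rw [this]
        exact A.mul_mem huA (hn.conj_mem _ (A.inv_mem huA) x)
      refine ⟨hzA, ?_⟩
      have e : N - j = (N - (j + 1)) + 1 := by omega
      rw [e, mem_fixSeries_succ] at hu'
      have h2 := hu' ⟨x, Subgroup.subset_closure hx⟩
      have h3 := (fixSeries F (Additive A) (N - (j + 1))).neg_mem h2
      convert h3 using 1
      rw [hsm, map_sub, hφ, map_one]
      apply Additive.toMul.injective
      apply Subtype.ext
      change ⁅u, x⁆ = (((-(cj A x (Additive.ofMul ⟨u, huA⟩) - Additive.ofMul ⟨u, huA⟩) :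
        Additive A).toMul : A) : H)
      rw [neg_sub]
      simp [commutatorElement_def, cj_val, mul_assoc, div_eq_mul_inv]
  refine ⟨c + N, fun z hz => ?_⟩
  obtain ⟨hzA, hz'⟩ := hlev N le_rfl z hz
  rw [Nat.sub_self] at hz'
  have h4 : Additive.ofMul (⟨z, hzA⟩ : A) = 0 := hz'
  have h5 : (⟨z, hzA⟩ : A) = 1 := h4
  exact congrArg Subtype.val h5

end Conj

end Pool.Agent.ConradOrders
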