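import Mathlib
import Pool.Agent.ConradOrders.LemmaE
import Pool.Agent.ConradOrders.Ell

/-!
Transcendental actions produce right orders which are not Conrad.
-/

namespace Pool.Agent.ConradOrders

universe u v

open scoped commutatorElement
open scoped IsMulCommutative
open Polynomial

/-- A finitely generated torsion-free nilpotent group rationally generated by one element
is infinite cyclic. -/
theorem exists_int_iso {Q : Type v} [Group Q] [Group.FG Q] (hTF : TF Q)
    (hnil : Group.IsNilpotent Q) (t : Q) (ht : t ≠ 1) (hT : Term Q {t}) :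
    ∃ e : Q →* Multiplicative ℤ, Function.Injective e ∧ Function.Surjective e ∧
      0 < Multiplicative.toAdd (e t) := by
  -- `Q` is commutative
  have h1 : Subgroup.upperCentralSeries Q 1 = ⊤ := by
    apply ucs_of_term hT hTF hnil
    rintro z ⟨u, hu, x, hx, rfl⟩
    rw [Set.mem_singleton_iff] at hx
    have hu' : u = t := hu
    rw [hx, hu', commutatorElement_self]
  have hcomm : ∀ a b : Q, a * b = b * a := by
    intro a b
    have ha : a ∈ Subgroup.upperCentralSeries Q (0 + 1) := by rw [zero_add, h1]; trivial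
    rw [Subgroup.mem_upperCentralSeries_succ_iff] at ha
    have := ha b
    rw [Subgroup.upperCentralSeries_zero, Subgroup.mem_bot] at this
    exact commutatorElement_eq_one_iff_mul_comm.mp this
  -- commensurability with `t`
  let N : Subgroup Q :=
    { carrier := {q | ∃ n : ℕ, 0 < n ∧ ∃ j : ℤ, q ^ n = t ^ j}
      one_mem' := ⟨1, one_pos, 0, by simp⟩
      mul_mem' := by
        rintro a b ⟨n, hn, j, hj⟩ ⟨m, hm, i, hi⟩
        refine ⟨n * m, Nat.mul_pos hn hm, j * m + i * n, ?_⟩
        have hab : Commute a b := hcomm a b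
        rw [hab.mul_pow, pow_mul, hj, mul_comm n m, pow_mul, hi, zpow_add, zpow_mul, zpow_mul,
          zpow_natCast, zpow_natCast]
      inv_mem' := by
        rintro a ⟨n, hn, j, hj⟩
        exact ⟨n, hn, -j, by rw [inv_pow, hj, zpow_neg]⟩ }
  have hN : N = ⊤ := by
    apply hT
    · intro a b
      have : ⁅a, b⁆ = 1 := commutatorElement_eq_one_iff_mul_comm.mpr (hcomm a b)
      rw [this]
      exact N.one_mem
    · rintro x n hn ⟨m, hm, j, hj⟩
      exact ⟨n * m, Nat.mul_pos hn hm, j, by rw [pow_mul, hj]⟩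
    · intro x hx
      rw [Set.mem_singleton_iff] at hx
      subst hx
      exact ⟨1, one_pos, 1, by simp⟩
  obtain ⟨χ, _, k, hk⟩ := exists_char (K := Q) ⊥
    (fun a b => by
      rw [Subgroup.mem_bot]
      exact commutatorElement_eq_one_iff_mul_comm.mpr (hcomm a b))
    (fun x n hn hx => by
      rw [Subgroup.mem_bot] at hx ⊢
      exact hTF x n hn hx)
    (fun hbt => ht (by
      have : t ∈ (⊥ : Subgroup Q) := by rw [hbt]; trivial
      exact Subgroup.mem_bot.mp this))
  have hpow : ∀ (x : Multiplicative ℤ) (n : ℕ), 0 < n → x ^ n = 1 → x = 1 := by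
    intro x n hn hx
    have h2 : (n : ℤ) * Multiplicative.toAdd x = 0 := by
      have := congrArg Multiplicative.toAdd hx
      simpa using this
    rcases mul_eq_zero.mp h2 with h | h
    · exact absurd h (by exact_mod_cast hn.ne')
    · exact h
  have hχt : χ t ≠ 1 := by
    intro h
    apply hk
    obtain ⟨n, hn, j, hj⟩ : k ∈ N := by rw [hN]; trivial
    apply hpow _ n hn
    rw [← map_pow, hj, map_zpow, h, one_zpow]
  have hinj : Function.Injective χ := by
    rw [injective_iff_map_eq_one]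
    intro q hq
    obtain ⟨n, hn, j, hj⟩ : q ∈ N := by rw [hN]; trivial
    have h2 : (χ t) ^ j = 1 := by rw [← map_zpow, ← hj, map_pow, hq, one_pow]
    have h3 : j * Multiplicative.toAdd (χ t) = 0 := by
      have := congrArg Multiplicative.toAdd h2
      simpa using this
    have h4 : j = 0 := by
      rcases mul_eq_zero.mp h3 with h | h
      · exact h
      · exact absurd h hχt
    rw [h4, zpow_zero] at hj
    exact hTF q n hn hj
  have hcyc : IsCyclic Q := isCyclic_of_injective χ hinj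
  obtain ⟨g, hg⟩ := hcyc.exists_generator
  have hginj : Function.Injective (zpowersHom Q g) := by
    rw [injective_iff_map_eq_one]
    intro x hx
    rw [zpowersHom_apply] at hx
    by_contra hne
    have hx0 : Multiplicative.toAdd x ≠ 0 := hne
    have hg1 : g ^ (Multiplicative.toAdd x).natAbs = 1 := by
      rcases Int.natAbs_eq (Multiplicative.toAdd x) with h | h
      · rw [h, zpow_natCast] at hx; exact hx
      · rw [h, zpow_neg, zpow_natCast, inv_eq_one] at hx; exact hx
    have hg2 : g = 1 := hTF g _ (Int.natAbs_pos.mpr hx0) hg1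
    obtain ⟨j, hj⟩ := hg t
    apply ht
    rw [← hj, hg2]
    simp
  have hgsurj : Function.Surjective (zpowersHom Q g) := by
    intro q
    obtain ⟨j, hj⟩ := hg q
    exact ⟨Multiplicative.ofAdd j, by rw [zpowersHom_apply]; exact hj⟩
  let E : Q ≃* Multiplicative ℤ := (MulEquiv.ofBijective (zpowersHom Q g) ⟨hginj, hgsurj⟩).symm
  rcases lt_trichotomy (Multiplicative.toAdd (E t)) 0 with h | h | h
  · refine ⟨(MulEquiv.inv (Multiplicative ℤ)).toMonoidHom.comp E.toMonoidHom, ?_, ?_, ?_⟩
    · exact (MulEquiv.inv (Multiplicative ℤ)).injective.comp E.injective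
    · exact (MulEquiv.inv (Multiplicative ℤ)).surjective.comp E.surjective
    · change 0 < Multiplicative.toAdd ((E t)⁻¹)
      rw [toAdd_inv]
      omega
  · exfalso
    apply ht
    apply E.injective
    rw [map_one]
    exact h
  · exact ⟨E.toMonoidHom, E.injective, E.surjective, h⟩

/-- The order on a terminal subgroup. -/
theorem exists_bad_on_terminal {K : Type u} [Group K] [Group.FG K] {P₀ : Set K} (hP₀ : IsCone P₀)
    {H : Type v} [Group H] (π : K →* H) (A : Subgroup H) [hAn : A.Normal] [IsMulCommutative A]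
    (hAiso : ∀ x : H, ∀ n : ℕ, 0 < n → x ^ n ∈ A → x ∈ A)
    (hnil : Group.IsNilpotent (H ⧸ A)) (t b : K) (hb : π b ∈ A)
    (htr : ∀ p : ℤ[X], p ≠ 0 → (aeval (cj A (π t)) p) (Additive.ofMul ⟨π b, hb⟩) ≠ 0)
    (hT : Term K {t, b}) :
    ∃ P : Set K, IsCone P ∧ badSet (b⁻¹)⁻¹ (t * (b⁻¹)⁻¹ * (b⁻¹)⁻¹) ⊆ P := by
  classical
  -- `π t` is not in `A`
  have htA : π t ∉ A := by
    intro h
    apply htr (X - 1) (X_sub_C_ne_zero 1)
    rw [map_sub, aeval_X, map_one, cj_of_mem A h, sub_self]
    rfl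
  -- the quotient
  let ψ : K →* H ⧸ A := (QuotientGroup.mk' A).comp π
  have hψ : ∀ x : K, ψ x = 1 ↔ π x ∈ A := fun x => QuotientGroup.eq_one_iff _
  let Q := ψ.range
  have hFG : Group.FG Q := Group.fg_of_surjective ψ.rangeRestrict_surjective
  have hTFH : TF (H ⧸ A) := by
    intro x n hn hx
    induction x using QuotientGroup.induction_on with
    | H x =>
      rw [← QuotientGroup.mk_pow, QuotientGroup.eq_one_iff] at hx
      rw [QuotientGroup.eq_one_iff]
      exact hAiso x n hn hx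
  have hTF : TF Q := by
    intro x n hn hx
    apply Subtype.ext
    apply hTFH _ n hn
    have := congrArg Subtype.val hx
    simpa using this
  have hnilQ : Group.IsNilpotent Q := Subgroup.isNilpotent Q
  have hTQ : Term Q {ψ.rangeRestrict t} := by
    have h1 := hT.map ψ.rangeRestrict ψ.rangeRestrict_surjective
    intro N h2 h3 h4
    apply h1 N h2 h3
    rintro _ ⟨x, hx, rfl⟩
    rcases hx with rfl | hx
    · exact h4 rfl
    · rw [Set.mem_singleton_iff] at hx
      subst hx
      have : ψ.rangeRestrict x = 1 := Subtype.ext ((hψ x).mpr hb)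
      rw [this]
      exact N.one_mem
  obtain ⟨e, heinj, hesurj, het⟩ := exists_int_iso hTF hnilQ (ψ.rangeRestrict t)
    (fun h => htA ((hψ t).mp (congrArg Subtype.val h))) hTQ
  let k : K → ℤ := fun x => Multiplicative.toAdd (e (ψ.rangeRestrict x))
  have hk_mul : ∀ x y, k (x * y) = k x + k y := fun x y => by
    change Multiplicative.toAdd (e (ψ.rangeRestrict (x * y))) = _
    rw [map_mul, map_mul, toAdd_mul]
  have hk_one : k 1 = 0 := by
    change Multiplicative.toAdd (e (ψ.rangeRestrict 1)) = _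
    rw [map_one, map_one, toAdd_one]
  have hk_inv : ∀ x, k x⁻¹ = - k x := fun x => by
    have := hk_mul x x⁻¹
    rw [mul_inv_cancel, hk_one] at this
    linarith
  have hk_zero : ∀ x, k x = 0 ↔ π x ∈ A := by
    intro x
    rw [← hψ]
    constructor
    · intro h
      have h1 : e (ψ.rangeRestrict x) = 1 := h
      have h2 : ψ.rangeRestrict x = 1 := heinj (by rw [h1, map_one])
      exact congrArg Subtype.val h2
    · intro h
      have h2 : ψ.rangeRestrict x = 1 := Subtype.ext h
      change Multiplicative.toAdd (e (ψ.rangeRestrict x)) = 0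
      rw [h2, map_one, toAdd_one]
  obtain ⟨s, hs⟩ : ∃ s : K, k s = 1 := by
    obtain ⟨q, hq⟩ := hesurj (Multiplicative.ofAdd 1)
    obtain ⟨s, rfl⟩ := ψ.rangeRestrict_surjective q
    exact ⟨s, by change Multiplicative.toAdd (e (ψ.rangeRestrict s)) = 1; rw [hq]; rfl⟩
  have hkt : 0 < k t := het
  obtain ⟨m, hm⟩ : ∃ m : ℕ, k t = m := ⟨(k t).toNat, by omega⟩
  have hm0 : 0 < m := by omega
  have hk_pow : ∀ n : ℕ, k (s ^ n) = n := by
    intro n
    induction n with
    | zero => rw [pow_zero, hk_one]; rfl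
    | succ n ih => rw [pow_succ, hk_mul, ih, hs]; push_cast; ring
  -- conjugation by `t` is the `m`-th power of conjugation by `s`
  have hcjt : cj A (π t) = (cj A (π s)) ^ m := by
    have h1 : π (t * (s ^ m)⁻¹) ∈ A := by
      rw [← hk_zero, hk_mul, hk_inv, hk_pow, hm]; ring
    have h2 : t = (t * (s ^ m)⁻¹) * s ^ m := by group
    conv_lhs => rw [h2]
    rw [map_mul, map_mul, cj_of_mem A h1, one_mul, map_pow, map_pow]
  -- transcendence over `s`
  have htrs : ∀ p : ℤ[X], p ≠ 0 → (aeval (cj A (π s)) p) (Additive.ofMul ⟨π b, hb⟩) ≠ 0 := by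
    intro p hp h0
    obtain ⟨q, hq, r, hr⟩ := exists_dvd_expand p hp m
    apply htr q hq
    rw [hcjt, ← expand_aeval, hr, mul_comm, map_mul]
    change (aeval (cj A (π s)) r) ((aeval (cj A (π s)) p) _) = 0
    rw [h0, map_zero]
  obtain ⟨l, hl3, hl⟩ := exists_transcendental
  obtain ⟨ell, hell, hellb⟩ := exists_ell (cj A (π s)) (Additive.ofMul (⟨π b, hb⟩ : A)) htrs l hl
  have hl0 : l ≠ 0 := by linarith
  have hlpos : 0 < l := by linarith
  -- semilinearity for all of `K`
  let S₀ : Subgroup K :=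
    { carrier := {h | ∀ a : Additive A, ell (cj A (π h) a) = l ^ (k h) * ell a}
      one_mem' := by
        intro a
        rw [map_one, map_one, hk_one, zpow_zero, one_mul]
        rfl
      mul_mem' := by
        intro x y hx hy a
        rw [map_mul, map_mul, hk_mul, zpow_add₀ hl0]
        change ell (cj A (π x) (cj A (π y) a)) = _
        rw [hx, hy, mul_assoc]
      inv_mem' := by
        intro x hx a
        have h1 := hx (cj A (π x⁻¹) a)
        have h2 : cj A (π x) (cj A (π x⁻¹) a) = a := by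
          change (cj A (π x) * cj A (π x⁻¹)) a = a
          rw [← map_mul, ← map_mul, mul_inv_cancel, map_one, map_one]
          rfl
        rw [h2] at h1
        rw [hk_inv, zpow_neg, h1, inv_mul_cancel_left₀ (zpow_ne_zero _ hl0)] }
  have hS₀ : ∀ h : K, ∀ a : Additive A, ell (cj A (π h) a) = l ^ (k h) * ell a := by
    intro h
    have hsS : s ∈ S₀ := by
      intro a
      rw [hell, hs, zpow_one]
    have hkerS : ∀ x, k x = 0 → x ∈ S₀ := by
      intro x hx a
      rw [cj_of_mem A ((hk_zero x).mp hx), hx, zpow_zero, one_mul]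
      rfl
    have hkz : ∀ j : ℤ, k (s ^ j) = j := by
      intro j
      rcases Int.eq_nat_or_neg j with ⟨n, rfl | rfl⟩
      · rw [zpow_natCast, hk_pow]
      · rw [zpow_neg, zpow_natCast, hk_inv, hk_pow]
    have h1 : h * (s ^ (k h))⁻¹ ∈ S₀ := by
      apply hkerS
      rw [hk_mul, hk_inv, hkz]; ring
    have h2 : h = (h * (s ^ (k h))⁻¹) * s ^ (k h) := by group
    have h3 : h ∈ S₀ := by
      rw [h2]
      exact S₀.mul_mem h1 (S₀.zpow_mem hsS _)
    exact h3
  -- commutators with `t` lie in `A`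
  have hcommA : ∀ x : K, ⁅π x, π t⁆ ∈ A := by
    intro x
    rw [← map_commutatorElement, ← hk_zero]
    change k (x * t * x⁻¹ * t⁻¹) = 0
    rw [hk_mul, hk_mul, hk_mul, hk_inv, hk_inv]; ring
  let δ : K → ℝ := fun x => ell (Additive.ofMul ⟨⁅π x, π t⁆, hcommA x⟩)
  have hδ_mul : ∀ x y, δ (x * y) = δ x + l ^ (k x) * δ y := by
    intro x y
    change ell _ = ell _ + l ^ (k x) * ell _
    rw [← hS₀, ← map_add]
    congr 1
    apply Additive.toMul.injective
    have hcm : ∀ u v : A, u * v = v * u := fun u v => mul_comm u v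
    change (⟨⁅π (x * y), π t⁆, hcommA (x * y)⟩ : A) = ⟨⁅π x, π t⁆, hcommA x⟩ *
      ((cj A (π x) (Additive.ofMul ⟨⁅π y, π t⁆, hcommA y⟩)).toMul)
    rw [hcm]
    apply Subtype.ext
    change ⁅π (x * y), π t⁆ = (π x * ⁅π y, π t⁆ * (π x)⁻¹) * ⁅π x, π t⁆
    rw [map_mul]
    simp [commutatorElement_def, mul_assoc]
  have hδ_t : δ t = 0 := by
    change ell _ = 0
    have : (Additive.ofMul (⟨⁅π t, π t⁆, hcommA t⟩ : A)) = 0 := by
      apply Additive.toMul.injective
      apply Subtype.ext
      exact commutatorElement_self _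
    rw [this, map_zero]
  have hδ_one : δ 1 = 0 := by
    have := hδ_mul 1 1
    rw [mul_one, hk_one, zpow_zero, one_mul] at this
    linarith
  have hkb : k b⁻¹ = 0 := by
    rw [hk_inv, (hk_zero b).mpr hb, neg_zero]
  have hδ_b : δ b⁻¹ = l ^ m - 1 := by
    have h1 : δ b⁻¹ = ell (cj A (π t) (Additive.ofMul ⟨π b, hb⟩)) -
        ell (Additive.ofMul ⟨π b, hb⟩) := by
      change ell _ = _
      rw [← map_sub, sub_eq_add_neg]
      congr 1
      apply Additive.toMul.injective
      have hcm : ∀ u v : A, u * v = v * u := fun u v => mul_comm u v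
      change (⟨⁅π b⁻¹, π t⁆, hcommA b⁻¹⟩ : A) =
        ((cj A (π t) (Additive.ofMul ⟨π b, hb⟩)).toMul) * (⟨π b, hb⟩ : A)⁻¹
      rw [hcm]
      apply Subtype.ext
      change ⁅π b⁻¹, π t⁆ = (π b)⁻¹ * (π t * π b * (π t)⁻¹)
      rw [map_inv]
      simp [commutatorElement_def, mul_assoc]
    rw [h1, hS₀, hellb, hm, zpow_natCast, mul_one]
  have hlm : 3 < l ^ m := by
    calc (3 : ℝ) < l := hl3
      _ = l ^ 1 := (pow_one l).symm
      _ ≤ l ^ m := pow_le_pow_right₀ (by linarith) hm0
  have act_mul : ∀ (x y : K) (u : ℝ), l ^ (k (x * y)) * u + δ (x * y) =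
      l ^ (k x) * (l ^ (k y) * u + δ y) + δ x := by
    intro x y u
    rw [hk_mul, zpow_add₀ hl0, hδ_mul]; ring
  have hv : ∀ u : ℝ, l ^ (k b⁻¹) * u + δ b⁻¹ = u + (l ^ m - 1) := by
    intro u
    rw [hkb, zpow_zero, one_mul, hδ_b]
  apply crossing (Ω := ℝ) (fun x u => l ^ (k x) * u + δ x)
    (fun u => by
      change l ^ (k 1) * u + δ 1 = u
      rw [hk_one, hδ_one]; simp)
    act_mul
    (fun x u w huw => by
      change l ^ (k x) * u + δ x < l ^ (k x) * w + δ x
      have : 0 < l ^ (k x) := zpow_pos hlpos _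
      have := mul_lt_mul_of_pos_left huw this
      linarith)
    hP₀ (0 : ℝ) t b⁻¹
    (by
      change l ^ (k t) * 0 + δ t = 0
      rw [hδ_t]; ring)
    (by
      change 0 < l ^ (k b⁻¹) * 0 + δ b⁻¹
      rw [hv]; linarith)
    (by
      change l ^ (k (b⁻¹ * b⁻¹ * b⁻¹)) * 0 + δ (b⁻¹ * b⁻¹ * b⁻¹) ≤
        l ^ (k t) * (l ^ (k b⁻¹) * 0 + δ b⁻¹) + δ t
      rw [act_mul, act_mul, hv, hv, hv, hδ_t, hm, zpow_natCast]
      nlinarith)

/-- Transcendental actions contradict the property that all right orders are Conrad. -/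
theorem trans_contra {Γ : Type u} [Group Γ] (hC : AllConrad Γ) {P₀ : Set Γ} (hP₀ : IsCone P₀)
    {H : Type v} [Group H] (π : Γ →* H) (hπ : Function.Surjective π) (A : Subgroup H)
    [hAn : A.Normal] [IsMulCommutative A]
    (hAiso : ∀ x : H, ∀ n : ℕ, 0 < n → x ^ n ∈ A → x ∈ A)
    (hnil : Group.IsNilpotent (H ⧸ A)) (t : H) (b : Additive A)
    (htr : ∀ p : ℤ[X], p ≠ 0 → (aeval (cj A t) p) b ≠ 0) : False := by
  obtain ⟨t', rfl⟩ := hπ t
  obtain ⟨b', hb'⟩ := hπ (b.toMul : H)
  have hb'A : π b' ∈ A := by rw [hb']; exact b.toMul.2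
  have hbeq : b = Additive.ofMul ⟨π b', hb'A⟩ := by
    apply Additive.toMul.injective
    exact Subtype.ext hb'.symm
  rw [hbeq] at htr
  have hXfin : ({t', b'} : Set Γ).Finite := Set.toFinite _
  have htc : t' ∈ Subgroup.closure ({t', b'} : Set Γ) := Subgroup.subset_closure (by simp)
  have hbc : b' ∈ Subgroup.closure ({t', b'} : Set Γ) := Subgroup.subset_closure (by simp)
  have hbad : ∀ K : Subgroup Γ, t' ∈ K → b' ∈ K →
      ∀ x ∈ badSet (b'⁻¹)⁻¹ (t' * (b'⁻¹)⁻¹ * (b'⁻¹)⁻¹), ∀ (ht : t' ∈ K) (hb : b' ∈ K),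
      ∃ y : K, y ∈ badSet (((⟨b', hb⟩ : K)⁻¹)⁻¹)
        ((⟨t', ht⟩ : K) * ((⟨b', hb⟩ : K)⁻¹)⁻¹ * ((⟨b', hb⟩ : K)⁻¹)⁻¹) ∧ (y : Γ) = x := by
    intro K _ _ x hx ht hb
    rcases hx with rfl | rfl | ⟨m, rfl⟩
    · exact ⟨_, Or.inl rfl, rfl⟩
    · exact ⟨_, Or.inr (Or.inl rfl), rfl⟩
    · exact ⟨_, Or.inr (Or.inr ⟨m, rfl⟩), rfl⟩
  obtain ⟨P, hP, hS⟩ := extend_hull ({t', b'} : Set Γ) hXfin
    (badSet (b'⁻¹)⁻¹ (t' * (b'⁻¹)⁻¹ * (b'⁻¹)⁻¹))
    (by
      intro x hx
      obtain ⟨y, _, hy⟩ := hbad _ htc hbc x hx htc hbc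
      rw [← hy]
      exact ⟨_, (Subgroup.fg_iff _).mpr ⟨_, rfl, hXfin⟩, termIn_closure _, y.2⟩)
    (by
      intro K hK hKT
      have htK : t' ∈ K := hKT.1 (by simp)
      have hbK : b' ∈ K := hKT.1 (by simp)
      have : Group.FG K := (Group.fg_iff_subgroup_fg K).mpr hK
      have hcone : IsCone (Subtype.val ⁻¹' P₀ : Set K) :=
        { mul := fun a b ha hb => hP₀.mul _ _ ha hb
          one := hP₀.one
          tot := by
            intro a
            rcases hP₀.tot (a : Γ) with h | h | h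
            · left; exact Subtype.ext h
            · right; left; exact h
            · right; right; exact h }
      have hT : Term K {(⟨t', htK⟩ : K), ⟨b', hbK⟩} := by
        have h1 := hKT.term
        have h2 : (Subtype.val ⁻¹' ({t', b'} : Set Γ) : Set K) = {⟨t', htK⟩, ⟨b', hbK⟩} := by
          ext x
          simp [Subtype.ext_iff]
        rwa [h2] at h1
      obtain ⟨P, hP, hPbad⟩ := exists_bad_on_terminal (K := K) hcone (π.comp K.subtype) A hAiso
        hnil ⟨t', htK⟩ ⟨b', hbK⟩ hb'A htr hT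
      refine ⟨Subtype.val '' P, ?_, ?_, ?_, ?_⟩
      · rintro _ ⟨a, ha, rfl⟩ _ ⟨b, hb, rfl⟩
        exact ⟨a * b, hP.mul a b ha hb, rfl⟩
      · rintro ⟨a, ha, ha'⟩
        have : a = 1 := Subtype.ext ha'
        rw [this] at ha
        exact hP.one ha
      · intro a ha
        rcases hP.tot ⟨a, ha⟩ with h | h | h
        · left; exact congrArg Subtype.val h
        · right; left; exact ⟨_, h, rfl⟩
        · right; right; exact ⟨_, h, rfl⟩
      · intro x hx _
        obtain ⟨y, hy, hy'⟩ := hbad K htK hbK x hx htK hbK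
        exact ⟨y, hPbad hy, hy'⟩)
  exact not_allConrad_of_cone hP hS hC

end Pool.Agent.ConradOrders
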