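import Mathlib
import Pool.Agent.ConradOrders.Trans
import Pool.Agent.ConradOrders.NormalAb

/-!
Boundedness of the class of torsion-free nilpotent quotients of bounded derived length.
-/

namespace Pool.Agent.ConradOrders

universe u

open scoped commutatorElement
open scoped IsMulCommutative
open Polynomial

variable {Γ : Type u} [Group Γ]

/-- The derived series of the subgroup generated by `X`, inside the whole group. -/
def ds (X : Set Γ) : ℕ → Subgroup Γ
  | 0 => Subgroup.closure X
  | n + 1 => ⁅ds X n, ds X n⁆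

theorem ds_conj (X : Set Γ) : ∀ n : ℕ, ∀ l ∈ Subgroup.closure X, ∀ a ∈ ds X n,
    l * a * l⁻¹ ∈ ds X n
  | 0 => fun l hl a ha => Subgroup.mul_mem _ (Subgroup.mul_mem _ hl ha) (Subgroup.inv_mem _ hl)
  | n + 1 => by
    intro l hl a ha
    have ih := ds_conj X n l hl
    have h1 : (ds X n).map (MulAut.conj l).toMonoidHom ≤ ds X n := by
      rintro _ ⟨b, hb, rfl⟩
      exact ih b hb
    have h2 : (ds X (n + 1)).map (MulAut.conj l).toMonoidHom ≤ ds X (n + 1) := by
      change (⁅ds X n, ds X n⁆).map _ ≤ ⁅ds X n, ds X n⁆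
      rw [Subgroup.map_commutator]
      exact Subgroup.commutator_mono h1 h1
    exact h2 ⟨a, ha, rfl⟩

/-- `φ` presents a torsion-free nilpotent quotient in which the image of the subgroup generated
by `X` has derived length at most `i`. -/
def Good (X : Set Γ) (i : ℕ) (Q : Type u) [Group Q] (φ : Γ →* Q) : Prop :=
  Function.Surjective φ ∧ Group.IsNilpotent Q ∧ TF Q ∧ (ds X i).map φ = ⊥

/-- Good quotients have class at most `c`. -/
def ClassBound (X : Set Γ) (i c : ℕ) : Prop :=
  ∀ (Q : Type u) (_ : Group Q) (φ : Γ →* Q), Good X i Q φ → Subgroup.upperCentralSeries Q c = ⊤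

/-- The double centralizer of the normal closure of a term of the derived series. -/
theorem good_step {X : Set Γ} {i : ℕ} {Q : Type u} [Group Q] {φ : Γ →* Q}
    (h : Good X (i + 1) Q φ) {c : ℕ}
    (hB : ClassBound X i c) (x y : Q) (hx : x ∈ (⊤ : Subgroup Q).lowerCentralSeries c)
    (hy : ∀ d ∈ Subgroup.normalClosure ((ds X i).map φ : Set Q), d * y = y * d) :
    x * y = y * x := by
  obtain ⟨hs, hn, htf, hd⟩ := h
  have hroots := roots_of_nilpotent htf hn
  let D : Subgroup Q := Subgroup.normalClosure ((ds X i).map φ : Set Q)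
  let A : Subgroup Q := Subgroup.centralizer (Subgroup.centralizer (D : Set Q) : Set Q)
  have hAn : A.Normal := inferInstance
  have hDA : D ≤ A := by
    intro d hd'
    rw [Subgroup.mem_centralizer_iff]
    intro z hz
    exact ((Subgroup.mem_centralizer_iff.mp hz) d hd').symm
  have hiso : ∀ x : Q, ∀ n : ℕ, 0 < n → x ^ n ∈ A → x ∈ A := by
    intro x n hn hx
    rw [Subgroup.mem_centralizer_iff] at hx ⊢
    intro z hz
    exact (hroots.commute hn (hx z hz).symm).symm
  have hgood : Good X i (Q ⧸ A) ((QuotientGroup.mk' A).comp φ) := by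
    refine ⟨(QuotientGroup.mk'_surjective A).comp hs, inferInstance, ?_, ?_⟩
    · intro x n hn hx
      induction x using QuotientGroup.induction_on with
      | H x =>
        rw [← QuotientGroup.mk_pow, QuotientGroup.eq_one_iff] at hx
        rw [QuotientGroup.eq_one_iff]
        exact hiso x n hn hx
    · rw [eq_bot_iff]
      rintro _ ⟨d, hd', rfl⟩
      rw [Subgroup.mem_bot]
      exact (QuotientGroup.eq_one_iff _).mpr
        (hDA (Subgroup.subset_normalClosure ⟨d, hd', rfl⟩))
  have h1 := hB _ _ _ hgood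
  rw [← Subgroup.lowerCentralSeries_eq_bot_iff_upperCentralSeries_eq_top] at h1
  have hxA : x ∈ A := by
    rw [← QuotientGroup.eq_one_iff]
    have h2 : (QuotientGroup.mk' A x) ∈ (⊤ : Subgroup (Q ⧸ A)).lowerCentralSeries c := by
      have h3 : QuotientGroup.mk' A x ∈
          ((⊤ : Subgroup Q).lowerCentralSeries c).map (QuotientGroup.mk' A) := ⟨x, hx, rfl⟩
      rw [Subgroup.map_lowerCentralSeries] at h3
      exact Subgroup.lowerCentralSeries_mono c le_top h3
    rw [h1, Subgroup.mem_bot] at h2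
    exact h2
  rw [Subgroup.mem_centralizer_iff] at hxA
  exact (hxA y (by rw [SetLike.mem_coe, Subgroup.mem_centralizer_iff]; exact hy)).symm

/-- The conjugates of the `i`-th derived subgroup commute in a good quotient. -/
theorem good_comm {X : Set Γ} (hT : Term Γ X) {i : ℕ} {Q : Type u} [Group Q] {φ : Γ →* Q}
    (h : Good X (i + 1) Q φ) (a b : Γ) (ha : a ∈ ds X i) (hb : b ∈ ds X i) (q : Q) :
    ⁅φ a, q * φ b * q⁻¹⁆ = 1 := by
  obtain ⟨hs, hn, htf, hd⟩ := h
  apply comm_conj_of_term htf hn (hT.map φ hs) ((ds X i).map φ) _ _ _ _ q ⟨a, ha, rfl⟩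
    ⟨b, hb, rfl⟩
  · intro x hx y hy
    rw [← commutatorElement_eq_one_iff_mul_comm, ← Subgroup.mem_bot, ← hd]
    change _ ∈ (⁅ds X i, ds X i⁆).map φ
    rw [Subgroup.map_commutator]
    exact Subgroup.commutator_mem_commutator hx hy
  · rintro l hl _ ⟨x, hx, rfl⟩
    rw [← MonoidHom.map_closure] at hl
    obtain ⟨l', hl', rfl⟩ := hl
    exact ⟨l' * x * l'⁻¹, ds_conj X i l' hl' x hx, by simp⟩

section Unip

variable {H : Type u} [Group H] (A : Subgroup H) [hAn : A.Normal] [IsMulCommutative A]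

theorem cj_sub_one_val (t : H) (a : Additive A) :
    ((((cj A t - 1) a).toMul : A) : H) = ⁅t, (a.toMul : H)⁆ := by
  change (((cj A t a - a).toMul : A) : H) = _
  rw [sub_eq_add_neg]
  change ((cj A t a).toMul : H) * ((a.toMul : A)⁻¹ : A) = _
  rw [cj_val]
  rfl

theorem cj_sub_one_pow_mem {Q : Type u} [Group Q] (f : H →* Q) (t : H) (a : Additive A) (k : ℕ) :
    f ((((cj A t - 1) ^ k) a).toMul : H) ∈ (⊤ : Subgroup Q).lowerCentralSeries k := by
  induction k with
  | zero => trivial
  | succ k ih =>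
    rw [pow_succ']
    change f ((((cj A t - 1) (((cj A t - 1) ^ k) a)).toMul : A) : H) ∈ _
    rw [cj_sub_one_val, map_commutatorElement, ← commutatorElement_inv,
      Subgroup.lowerCentralSeries_succ]
    apply Subgroup.inv_mem
    exact Subgroup.commutator_mem_commutator ih trivial

/-- The kernel of a homomorphism on `A`, written additively. -/
def kerAdd {Q : Type u} [Group Q] (f : H →* Q) : AddSubgroup (Additive A) where
  carrier := {a | f (a.toMul : H) = 1}
  zero_mem' := by
    change f ((1 : A) : H) = 1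
    simp
  add_mem' := by
    intro a b ha hb
    change f (((a.toMul * b.toMul : A)) : H) = 1
    rw [Subgroup.coe_mul, map_mul, show f (a.toMul : H) = 1 from ha,
      show f (b.toMul : H) = 1 from hb, one_mul]
  neg_mem' := by
    intro a ha
    change f (((a.toMul : A)⁻¹ : A) : H) = 1
    rw [Subgroup.coe_inv, map_inv, show f (a.toMul : H) = 1 from ha, inv_one]

theorem mem_kerAdd {Q : Type u} [Group Q] {f : H →* Q} {a : Additive A} :
    a ∈ kerAdd A f ↔ f (a.toMul : H) = 1 := Iff.rfl

theorem aeval_mem_kerAdd {Q : Type u} [Group Q] (f : H →* Q) (t : H) (p : ℤ[X])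
    {a : Additive A} (ha : a ∈ kerAdd A f) : (aeval (cj A t) p) a ∈ kerAdd A f := by
  induction p using Polynomial.induction_on' with
  | add p q hp hq =>
    rw [map_add]
    exact (kerAdd A f).add_mem hp hq
  | monomial n c =>
    rw [aeval_monomial, eq_intCast]
    have h1 : ∀ n : ℕ, ((cj A t) ^ n) a ∈ kerAdd A f := by
      intro n
      induction n with
      | zero => exact ha
      | succ n ih =>
        rw [pow_succ']
        change (cj A t) (((cj A t) ^ n) a) ∈ _
        rw [mem_kerAdd, cj_val, map_mul, map_mul, (mem_kerAdd A).mp ih, mul_one, map_inv,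
          mul_inv_cancel]
    have h2 : ((c : AddMonoid.End (Additive A)) * (cj A t) ^ n) a = c • (((cj A t) ^ n) a) := by
      change (c : AddMonoid.End (Additive A)) (((cj A t) ^ n) a) = _
      rw [AddMonoid.End.intCast_apply]
    rw [h2]
    exact zsmul_mem (h1 n) c

/-- An algebraic element of a residually torsion-free nilpotent group acts unipotently. -/
theorem unip_of_alg
    (hsep : ∀ h : H, h ≠ 1 → ∃ (Q : Type u) (_ : Group Q) (f : H →* Q),
      Group.IsNilpotent Q ∧ TF Q ∧ f h ≠ 1)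
    (t : H) (b : Additive A) (p : ℤ[X]) (hp : p ≠ 0) (hpb : (aeval (cj A t) p) b = 0) :
    ∃ k : ℕ, ((cj A t - 1) ^ k) b = 0 := by
  classical
  set τ := cj A t with hτ
  obtain ⟨r, hr, hr1⟩ := exists_eq_pow_rootMultiplicity_mul_and_not_dvd p hp 1
  set m := p.rootMultiplicity 1 with hm
  refine ⟨m, ?_⟩
  by_contra hne
  set b' := ((τ - 1) ^ m) b with hb'
  have hXe : aeval τ (X - C 1 : ℤ[X]) = τ - 1 := by
    rw [map_sub, aeval_X, map_one, map_one]
  have hrb : (aeval τ r) b' = 0 := by
    rw [hr, mul_comm, map_mul, map_pow, hXe] at hpb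
    exact hpb
  have hb'H : (b'.toMul : H) ≠ 1 := by
    intro h
    apply hne
    apply Additive.toMul.injective
    exact Subtype.ext h
  obtain ⟨Q, _, f, hnil, htf, hf⟩ := hsep _ hb'H
  have hex : ∃ k : ℕ, ((τ - 1) ^ k) b' ∈ kerAdd A f := by
    obtain ⟨n, hn⟩ := Subgroup.nilpotent_iff_lowerCentralSeries.mp hnil
    refine ⟨n, ?_⟩
    have := cj_sub_one_pow_mem A f t b' n
    rw [hn, Subgroup.mem_bot] at this
    exact this
  have hk := Nat.find_spec hex
  have hpos : Nat.find hex ≠ 0 := by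
    intro h0
    rw [h0, pow_zero] at hk
    exact hf hk
  obtain ⟨j, hj⟩ := Nat.exists_eq_succ_of_ne_zero hpos
  have hjn : ((τ - 1) ^ j) b' ∉ kerAdd A f := Nat.find_min hex (by omega)
  apply hjn
  set v := ((τ - 1) ^ j) b' with hv
  have hv1 : (τ - 1) v ∈ kerAdd A f := by
    rw [hj, Nat.succ_eq_add_one, pow_succ'] at hk
    exact hk
  -- `r (τ) v = 0`
  have hrv : (aeval τ r) v = 0 := by
    have hcomm : (aeval τ r) * (τ - 1) ^ j = (τ - 1) ^ j * (aeval τ r) := by
      rw [← hXe, ← map_pow, ← map_mul, ← map_mul, mul_comm]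
    change ((aeval τ r) * (τ - 1) ^ j) b' = 0
    rw [hcomm]
    change ((τ - 1) ^ j) ((aeval τ r) b') = 0
    rw [hrb, map_zero]
  -- decompose `r`
  obtain ⟨r1, hr1'⟩ : (X - C 1 : ℤ[X]) ∣ r - C (r.eval 1) := dvd_iff_isRoot.mpr (by
    simp [IsRoot])
  have hr2 : r = C (r.eval 1) + r1 * (X - C 1) := by
    rw [mul_comm, ← hr1']; ring
  have hrne : r.eval 1 ≠ 0 := by
    intro h
    exact hr1 (dvd_iff_isRoot.mpr h)
  have hsum : (aeval τ r) v = (r.eval 1) • v + (aeval τ r1) ((τ - 1) v) := by
    conv_lhs => rw [hr2]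
    rw [map_add, map_mul, hXe, aeval_C, eq_intCast]
    change ((r.eval 1 : ℤ) : AddMonoid.End (Additive A)) v + (aeval τ r1) ((τ - 1) v) = _
    rw [AddMonoid.End.intCast_apply]
  rw [hrv] at hsum
  have hmem : (r.eval 1) • v ∈ kerAdd A f := by
    have h1 := aeval_mem_kerAdd A f t r1 hv1
    have h2 : (r.eval 1) • v = - (aeval τ r1) ((τ - 1) v) := by
      rw [eq_neg_iff_add_eq_zero]; exact hsum.symm
    rw [h2]
    exact (kerAdd A f).neg_mem h1
  -- isolation
  rw [mem_kerAdd] at hmem ⊢
  have h3 : f (v.toMul : H) ^ (r.eval 1) = 1 := by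
    rw [← map_zpow]
    exact hmem
  have h4 : f (v.toMul : H) ^ (r.eval 1).natAbs = 1 := by
    rcases Int.natAbs_eq (r.eval 1) with h | h
    · rw [h, zpow_natCast] at h3; exact h3
    · rw [h, zpow_neg, zpow_natCast, inv_eq_one] at h3; exact h3
  exact htf _ _ (Int.natAbs_pos.mpr hrne) h4

end Unip

section Step

/-- The intersection of the kernels of the good quotients. -/
def goodKer (X : Set Γ) (i : ℕ) : Subgroup Γ where
  carrier := {g | ∀ (Q : Type u) (_ : Group Q) (φ : Γ →* Q), Good X i Q φ → φ g = 1}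
  one_mem' := fun Q _ φ _ => map_one φ
  mul_mem' := by
    intro a b ha hb Q _ φ h
    rw [map_mul, ha Q _ φ h, hb Q _ φ h, one_mul]
  inv_mem' := by
    intro a ha Q _ φ h
    rw [map_inv, ha Q _ φ h, inv_one]

instance goodKer_normal (X : Set Γ) (i : ℕ) : (goodKer X i).Normal := by
  refine ⟨fun n hn g Q _ φ h => ?_⟩
  rw [map_mul, map_mul, hn Q _ φ h, mul_one, map_inv, mul_inv_cancel]

theorem bound_step (hC : AllConrad Γ) {P₀ : Set Γ} (hP₀ : IsCone P₀) {X : Set Γ}
    (hX : X.Finite) (hT : Term Γ X) (i c : ℕ) (hB : ClassBound X i c) :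
    ∃ m, ClassBound X (i + 1) m := by
  classical
  let M := goodKer X (i + 1)
  let H := Γ ⧸ M
  let π : Γ →* H := QuotientGroup.mk' M
  have hπ : Function.Surjective π := QuotientGroup.mk'_surjective M
  -- factorisations
  have hfac : ∀ (Q : Type u) (_ : Group Q) (φ : Γ →* Q), Good X (i + 1) Q φ →
      ∃ f : H →* Q, ∀ g, f (π g) = φ g := by
    intro Q _ φ h
    exact ⟨QuotientGroup.lift M φ (fun g hg => hg Q _ φ h), fun g => rfl⟩
  have hsep : ∀ h : H, h ≠ 1 → ∃ (Q : Type u) (_ : Group Q) (f : H →* Q),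
      Good X (i + 1) Q (f.comp π) ∧ f h ≠ 1 := by
    intro h hne
    obtain ⟨g, rfl⟩ := hπ h
    have hg : g ∉ M := fun hg => hne ((QuotientGroup.eq_one_iff g).mpr hg)
    have : ∃ (Q : Type u) (_ : Group Q) (φ : Γ →* Q), Good X (i + 1) Q φ ∧ φ g ≠ 1 := by
      by_contra hcon
      push Not at hcon
      exact hg (fun Q _ φ hφ => hcon Q _ φ hφ)
    obtain ⟨Q, _, φ, hφ, hne'⟩ := this
    obtain ⟨f, hf⟩ := hfac Q _ φ hφ
    refine ⟨Q, _, f, ?_, ?_⟩
    · have : f.comp π = φ := MonoidHom.ext hf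
      rw [this]; exact hφ
    · rw [hf]; exact hne'
  have hroots : Roots H := by
    intro x y n hn hxy
    by_contra hne
    have hne' : x * y⁻¹ ≠ 1 := fun h => hne (mul_inv_eq_one.mp h)
    obtain ⟨Q, _, f, ⟨_, hnil, htf, _⟩, hf⟩ := hsep _ hne'
    apply hf
    have : f x = f y := roots_of_nilpotent htf hnil _ _ n hn (by
      rw [← map_pow, ← map_pow, hxy])
    rw [map_mul, map_inv, this, mul_inv_cancel]
  -- the normal closure of the derived subgroup
  let D : Subgroup H := Subgroup.normalClosure ((ds X i).map π : Set H)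
  have hDgen : ∀ a ∈ (ds X i).map π, ∀ b ∈ (ds X i).map π, ∀ q : H,
      a * (q * b * q⁻¹) = (q * b * q⁻¹) * a := by
    rintro _ ⟨a, ha, rfl⟩ _ ⟨b, hb, rfl⟩ q
    rw [← commutatorElement_eq_one_iff_mul_comm]
    by_contra hne
    obtain ⟨Q, _, f, hgood, hf⟩ := hsep _ hne
    apply hf
    have h1 := good_comm hT hgood a b ha hb (f q)
    rw [map_commutatorElement, map_mul, map_mul, map_inv]
    exact h1
  have hDab : ∀ a ∈ D, ∀ b ∈ D, a * b = b * a := by
    have hcs : ∀ x ∈ Group.conjugatesOfSet ((ds X i).map π : Set H),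
        ∃ a ∈ (ds X i).map π, ∃ q : H, x = q * a * q⁻¹ := by
      intro x hx
      rw [Group.mem_conjugatesOfSet_iff] at hx
      obtain ⟨a, ha, hax⟩ := hx
      obtain ⟨q, hq⟩ := isConj_iff.mp hax
      exact ⟨a, ha, q, hq.symm⟩
    have hgen : ∀ x ∈ Group.conjugatesOfSet ((ds X i).map π : Set H),
        ∀ y ∈ Group.conjugatesOfSet ((ds X i).map π : Set H), x * y = y * x := by
      intro x hx y hy
      obtain ⟨a, ha, p, rfl⟩ := hcs x hx
      obtain ⟨b, hb, q, rfl⟩ := hcs y hy
      have h1 := hDgen a ha b hb (p⁻¹ * q)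
      calc p * a * p⁻¹ * (q * b * q⁻¹)
          = p * (a * (p⁻¹ * q * b * (p⁻¹ * q)⁻¹)) * p⁻¹ := by group
        _ = p * (p⁻¹ * q * b * (p⁻¹ * q)⁻¹ * a) * p⁻¹ := by rw [h1]
        _ = q * b * q⁻¹ * (p * a * p⁻¹) := by group
    have h1 : Subgroup.closure (Group.conjugatesOfSet ((ds X i).map π : Set H)) ≤
        Subgroup.centralizer (Group.conjugatesOfSet ((ds X i).map π : Set H)) := by
      rw [Subgroup.closure_le]
      intro x hx
      rw [SetLike.mem_coe, Subgroup.mem_centralizer_iff]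
      intro y hy
      exact hgen y hy x hx
    have h2 : Subgroup.closure (Group.conjugatesOfSet ((ds X i).map π : Set H)) ≤
        Subgroup.centralizer (D : Set H) := by
      rw [Subgroup.closure_le]
      intro x hx
      rw [SetLike.mem_coe, Subgroup.mem_centralizer_iff]
      intro y hy
      exact ((Subgroup.mem_centralizer_iff.mp (h1 hy)) x hx).symm
    intro a ha b hb
    exact ((Subgroup.mem_centralizer_iff.mp (h2 ha)) b hb).symm
  let C : Subgroup H := Subgroup.centralizer (D : Set H)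
  have hCn : C.Normal := inferInstance
  let A : Subgroup H := Subgroup.centralizer (C : Set H)
  have hAn : A.Normal := inferInstance
  have hDC : D ≤ C := by
    intro d hd
    rw [Subgroup.mem_centralizer_iff]
    intro z hz
    exact hDab z hz d hd
  have hAC : A ≤ C := Subgroup.centralizer_le hDC
  have hAcomm : IsMulCommutative A := by
    refine ⟨⟨fun a b => ?_⟩⟩
    apply Subtype.ext
    exact ((Subgroup.mem_centralizer_iff.mp a.2) b (hAC b.2)).symm
  have hAiso : ∀ x : H, ∀ n : ℕ, 0 < n → x ^ n ∈ A → x ∈ A := by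
    intro x n hn hx
    rw [Subgroup.mem_centralizer_iff] at hx ⊢
    intro z hz
    exact (hroots.commute hn (hx z hz).symm).symm
  have hlcs : (⊤ : Subgroup H).lowerCentralSeries c ≤ A := by
    intro x hx
    rw [Subgroup.mem_centralizer_iff]
    intro y hy
    have hxy : x * y = y * x := by
      rw [← commutatorElement_eq_one_iff_mul_comm]
      by_contra hne
      obtain ⟨Q, _, f, hgood, hf⟩ := hsep _ hne
      apply hf
      rw [map_commutatorElement, commutatorElement_eq_one_iff_mul_comm]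
      have hfs : Function.Surjective f := by
        intro q
        obtain ⟨g, hg⟩ := hgood.1 q
        exact ⟨π g, hg⟩
      apply good_step hgood hB
      · have h3 : f x ∈ ((⊤ : Subgroup H).lowerCentralSeries c).map f := ⟨x, hx, rfl⟩
        rw [Subgroup.map_lowerCentralSeries] at h3
        exact Subgroup.lowerCentralSeries_mono c le_top h3
      · intro d hd
        have h4 : Subgroup.normalClosure ((ds X i).map (f.comp π) : Set Q) = D.map f := by
          rw [Subgroup.map_normalClosure _ f hfs, ← Subgroup.map_map]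
          rfl
        rw [h4] at hd
        obtain ⟨d', hd', rfl⟩ := hd
        rw [← map_mul, ← map_mul, (Subgroup.mem_centralizer_iff.mp hy) d' hd']
    exact hxy.symm
  have hnilHA : Group.IsNilpotent (H ⧸ A) := by
    rw [Subgroup.nilpotent_iff_lowerCentralSeries]
    refine ⟨c, ?_⟩
    rw [eq_bot_iff]
    intro q hq
    have htop : (⊤ : Subgroup H).map (QuotientGroup.mk' A) = ⊤ :=
      Subgroup.map_top_of_surjective _ (QuotientGroup.mk'_surjective A)
    rw [← htop, ← Subgroup.map_lowerCentralSeries] at hq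
    obtain ⟨x, hx, rfl⟩ := hq
    rw [Subgroup.mem_bot]
    exact (QuotientGroup.eq_one_iff x).mpr (hlcs hx)
  have hun : ∀ t ∈ Subgroup.closure (π '' X), ∀ a : Additive A,
      ∃ k : ℕ, ((cj A t - 1) ^ k) a = 0 := by
    intro t _ b
    by_contra hcon
    apply trans_contra hC hP₀ π hπ A hAiso hnilHA t b
    intro p hp hpb
    apply hcon
    apply unip_of_alg A _ t b p hp hpb
    intro h hne
    obtain ⟨Q, _, f, ⟨_, hnil, htf, _⟩, hf⟩ := hsep h hne
    exact ⟨Q, _, f, hnil, htf, hf⟩
  obtain ⟨m, hm⟩ := lnc_trivial A (hX.image π) c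
    (fun z hz => hlcs (lnc_mem_lcs _ c z hz)) hun
  refine ⟨m, ?_⟩
  intro Q _ φ hφ
  obtain ⟨f, hf⟩ := hfac Q _ φ hφ
  obtain ⟨hs, hnil, htf, _⟩ := hφ
  apply ucs_of_term (hT.map φ hs) htf hnil
  intro z hz
  have himg : φ '' X = f '' (π '' X) := by
    rw [Set.image_image]
    exact Set.image_congr (fun g _ => (hf g).symm)
  rw [himg] at hz
  obtain ⟨u, hu, rfl⟩ := mem_lnc_map f _ m z hz
  rw [hm u hu, map_one]

theorem exists_bound (hC : AllConrad Γ) {P₀ : Set Γ} (hP₀ : IsCone P₀) {X : Set Γ}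
    (hX : X.Finite) (hT : Term Γ X) (i : ℕ) : ∃ c, ClassBound X i c := by
  induction i with
  | zero =>
    refine ⟨0, fun Q _ φ h => ?_⟩
    obtain ⟨hs, hnil, htf, hd⟩ := h
    apply ucs_of_term (hT.map φ hs) htf hnil
    rintro _ ⟨x, hx, rfl⟩
    rw [← Subgroup.mem_bot, ← hd]
    exact ⟨x, Subgroup.subset_closure hx, rfl⟩
  | succ i ih =>
    obtain ⟨c, hc⟩ := ih
    exact bound_step hC hP₀ hX hT i c hc

end Step

end Pool.Agent.ConradOrders
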