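import Mathlib
import Pool.Agent.ConradOrders.Basic

/-!
If every right order on an ordered group is Conrad, the given two-sided order is central.
-/

namespace Pool.Agent.ConradOrders

universe u

open scoped commutatorElement

variable {G : Type u} [Group G] [LinearOrder G] [MulLeftMono G] [MulRightMono G]

theorem isCone_pos : IsCone {x : G | 1 < x} where
  mul a b ha hb := one_lt_mul' ha hb
  one := lt_irrefl _
  tot a := by
    rcases lt_trichotomy a 1 with h | h | h
    · right; right; exact one_lt_inv'.mpr h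
    · left; exact h
    · right; left; exact h

theorem conj_lt {a b g : G} (h : a < b) : g * a * g⁻¹ < g * b * g⁻¹ :=
  mul_lt_mul_left (mul_lt_mul_right h g) g⁻¹

theorem conj_le {a b g : G} (h : a ≤ b) : g * a * g⁻¹ ≤ g * b * g⁻¹ := by
  rcases h.lt_or_eq with h | h
  · exact (conj_lt h).le
  · rw [h]

/-- In an ordered group all of whose right orders are Conrad, conjugates of a positive
element `e` are less than `e ^ 4`. -/
theorem conj_lt_pow_four (hG : AllConrad G) {e T : G} (he : 1 < e) : T * e * T⁻¹ < e ^ 4 := by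
  by_contra hcon
  push Not at hcon
  set a := T * e * T⁻¹ with ha
  have he4 : e < e ^ 4 := by
    calc e = e * 1 := (mul_one e).symm
      _ < e * e ^ 3 := mul_lt_mul_right (one_lt_pow' he (by norm_num)) e
      _ = e ^ 4 := by rw [← pow_succ']
  have hea : e < a := lt_of_lt_of_le he4 hcon
  have hTe : T * e = a * T := by rw [ha]; group
  have h1a : 1 < a := he.trans hea
  obtain ⟨P, hP, hbad⟩ := crossing (G := G) (Ω := G) (fun g x => g * x * g⁻¹)
    (fun x => by simp) (fun a b x => by simp [mul_assoc])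
    (fun g x y hxy => conj_lt hxy) isCone_pos T T e⁻¹ (by simp)
    (by
      change T < e⁻¹ * T * e⁻¹⁻¹
      rw [inv_inv]
      have h1 : e * T < T * e := by
        rw [hTe]; exact mul_lt_mul_left hea T
      have h2 := mul_lt_mul_right h1 e⁻¹
      simpa [mul_assoc] using h2)
    (by
      change e⁻¹ * e⁻¹ * e⁻¹ * T * (e⁻¹ * e⁻¹ * e⁻¹)⁻¹ ≤ T * (e⁻¹ * T * e⁻¹⁻¹) * T⁻¹
      have hL : e⁻¹ * e⁻¹ * e⁻¹ * T * (e⁻¹ * e⁻¹ * e⁻¹)⁻¹ = (e ^ 3)⁻¹ * (a ^ 3 * T) := by
        have : a ^ 3 * T = T * e ^ 3 := by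
          rw [ha, conj_pow]; group
        rw [this]; group
      have hR : T * (e⁻¹ * T * e⁻¹⁻¹) * T⁻¹ = a⁻¹ * (T * a * T⁻¹) * T := by
        rw [ha]; group
      rw [hL, hR, ← mul_assoc]
      apply mul_le_mul_left
      have h1 : a ^ 4 ≤ T * a * T⁻¹ := by
        have : a ^ 4 = T * e ^ 4 * T⁻¹ := by rw [ha, conj_pow]
        rw [this]
        exact conj_le hcon
      calc (e ^ 3)⁻¹ * a ^ 3 ≤ 1 * a ^ 3 := by
            apply mul_le_mul_left
            exact inv_le_one'.mpr (one_le_pow_of_one_le' he.le 3)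
        _ = a⁻¹ * a ^ 4 := by rw [one_mul, pow_succ' a 3]; group
        _ ≤ a⁻¹ * (T * a * T⁻¹) := mul_le_mul_right h1 _)
  exact not_allConrad_of_cone hP hbad hG

/-- Centrality, positive commutators. -/
theorem comm_pow_lt_aux (hG : AllConrad G) {g x : G} (hx : 1 < x)
    (hc : 1 ≤ g * x * g⁻¹ * x⁻¹) (n : ℕ) : (g * x * g⁻¹ * x⁻¹) ^ n < x := by
  by_contra hcon
  push Not at hcon
  set c := g * x * g⁻¹ * x⁻¹ with hcdef
  have hcx : g * x * g⁻¹ = c * x := by rw [hcdef]; group
  have key : ∀ k : ℕ, ∃ m : G, 1 ≤ m ∧ x ≤ m ^ n ∧ m ^ k * x ≤ g ^ k * x * (g ^ k)⁻¹ := by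
    intro k
    induction k with
    | zero => exact ⟨c, hc, hcon, by simp⟩
    | succ k ih =>
      obtain ⟨m, hm1, hm2, hm3⟩ := ih
      set ck := g ^ k * c * (g ^ k)⁻¹ with hck
      have hgk : x ≤ g ^ k * x * (g ^ k)⁻¹ := by
        refine le_trans ?_ hm3
        calc x = 1 * x := (one_mul x).symm
          _ ≤ m ^ k * x := mul_le_mul_left (one_le_pow_of_one_le' hm1 k) x
      have hck1 : 1 ≤ ck := by
        have h0 := conj_le (g := g ^ k) hc
        rw [mul_one, mul_inv_cancel] at h0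
        exact h0
      have hck2 : x ≤ ck ^ n := by
        rw [hck, conj_pow]
        exact hgk.trans (conj_le hcon)
      have hstep : g ^ (k + 1) * x * (g ^ (k + 1))⁻¹ = ck * (g ^ k * x * (g ^ k)⁻¹) := by
        have : g ^ (k + 1) * x * (g ^ (k + 1))⁻¹ = g ^ k * (g * x * g⁻¹) * (g ^ k)⁻¹ := by
          rw [pow_succ]; group
        rw [this, hcx, hck]
        group
      refine ⟨min ck m, le_min hck1 hm1, ?_, ?_⟩
      · rcases min_choice ck m with h | h <;> rw [h] <;> assumption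
      · rw [hstep]
        calc (min ck m) ^ (k + 1) * x = min ck m * ((min ck m) ^ k * x) := by
              rw [pow_succ', mul_assoc]
          _ ≤ ck * (m ^ k * x) := by
              apply mul_le_mul' (min_le_left _ _)
              apply mul_le_mul_left
              exact pow_le_pow_left' (min_le_right _ _) k
          _ ≤ ck * (g ^ k * x * (g ^ k)⁻¹) := mul_le_mul_right hm3 _
  obtain ⟨m, hm1, hm2, hm3⟩ := key (n * 3)
  have h1 : x ^ 3 ≤ m ^ (n * 3) := by
    rw [pow_mul]
    exact pow_le_pow_left' hm2 3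
  have h2 : x ^ 4 ≤ g ^ (n * 3) * x * (g ^ (n * 3))⁻¹ := by
    refine le_trans ?_ hm3
    rw [pow_succ]
    exact mul_le_mul_left h1 x
  exact absurd (conj_lt_pow_four hG hx (T := g ^ (n * 3))) (not_lt.mpr h2)

theorem comm_pow_lt (hG : AllConrad G) {g x : G} (hx : 1 < x) (n : ℕ) :
    (g * x * g⁻¹ * x⁻¹) ^ n < x ∧ ((g * x * g⁻¹ * x⁻¹)⁻¹) ^ n < x := by
  rcases le_total 1 (g * x * g⁻¹ * x⁻¹) with h | h
  · refine ⟨comm_pow_lt_aux hG hx h n, ?_⟩
    exact lt_of_le_of_lt (pow_le_one' (inv_le_one'.mpr h) n) hx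
  · refine ⟨lt_of_le_of_lt (pow_le_one' h n) hx, ?_⟩
    have hx' : 1 < g * x * g⁻¹ := by
      have := conj_lt (g := g) hx
      simpa using this
    have e : g⁻¹ * (g * x * g⁻¹) * g⁻¹⁻¹ * (g * x * g⁻¹)⁻¹ = (g * x * g⁻¹ * x⁻¹)⁻¹ := by group
    have h2 := comm_pow_lt_aux hG (g := g⁻¹) hx' (by rw [e]; exact one_le_inv'.mpr h) n
    rw [e] at h2
    refine lt_of_lt_of_le h2 ?_
    have := mul_le_mul_left h x
    simpa [mul_assoc] using this

/-- The convex subgroup of elements infinitely smaller than `w`. -/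
def small (w : G) (hw : 1 < w) : Subgroup G where
  carrier := {g | ∀ n : ℕ, g ^ n < w ∧ g⁻¹ ^ n < w}
  one_mem' := fun n => by simpa using hw
  mul_mem' := by
    intro a b ha hb n
    set m := max (max a a⁻¹) (max b b⁻¹) with hm
    have hmw : ∀ k : ℕ, m ^ k < w := by
      intro k
      rcases max_choice (max a a⁻¹) (max b b⁻¹) with h | h
      · rcases max_choice a a⁻¹ with h' | h'
        · rw [hm, h, h']; exact (ha k).1
        · rw [hm, h, h']; exact (ha k).2
      · rcases max_choice b b⁻¹ with h' | h'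
        · rw [hm, h, h']; exact (hb k).1
        · rw [hm, h, h']; exact (hb k).2
    have h1 : a ≤ m := (le_max_left _ _).trans (le_max_left _ _)
    have h2 : a⁻¹ ≤ m := (le_max_right _ _).trans (le_max_left _ _)
    have h3 : b ≤ m := (le_max_left _ _).trans (le_max_right _ _)
    have h4 : b⁻¹ ≤ m := (le_max_right _ _).trans (le_max_right _ _)
    constructor
    · calc (a * b) ^ n ≤ (m * m) ^ n := pow_le_pow_left' (mul_le_mul' h1 h3) n
        _ = m ^ (2 * n) := by rw [← sq, pow_mul]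
        _ < w := hmw _
    · calc (a * b)⁻¹ ^ n = (b⁻¹ * a⁻¹) ^ n := by rw [mul_inv_rev]
        _ ≤ (m * m) ^ n := pow_le_pow_left' (mul_le_mul' h4 h2) n
        _ = m ^ (2 * n) := by rw [← sq, pow_mul]
        _ < w := hmw _
  inv_mem' := by
    intro a ha n
    rw [inv_inv]
    exact ⟨(ha n).2, (ha n).1⟩

theorem mem_small {w : G} {hw : 1 < w} {g : G} :
    g ∈ small w hw ↔ ∀ n : ℕ, g ^ n < w ∧ g⁻¹ ^ n < w := Iff.rfl

theorem small_isolated {w : G} {hw : 1 < w} {x : G} {n : ℕ} (hn : 0 < n)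
    (h : x ^ n ∈ small w hw) : x ∈ small w hw := by
  intro k
  have hpow : ∀ y : G, (∀ k : ℕ, (y ^ n) ^ k < w) → ∀ k : ℕ, y ^ k < w := by
    intro y hy k
    rcases le_total 1 y with h1 | h1
    · calc y ^ k ≤ y ^ (n * k) := pow_le_pow_right' h1 (Nat.le_mul_of_pos_left k hn)
        _ = (y ^ n) ^ k := pow_mul _ _ _
        _ < w := hy k
    · exact lt_of_le_of_lt (pow_le_one' h1 k) hw
  refine ⟨hpow x (fun k => (h k).1) k, hpow x⁻¹ (fun k => ?_) k⟩
  rw [inv_pow x n]
  exact (h k).2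

theorem small_normal (hG : AllConrad G) {w : G} {hw : 1 < w} : (small w hw).Normal := by
  refine ⟨fun x hx g => ?_⟩
  have hpow : ∀ y : G, (∀ k : ℕ, y ^ k < w) → ∀ k : ℕ, (g * y * g⁻¹) ^ k < w := by
    intro y hy k
    rw [conj_pow]
    rcases lt_trichotomy (y ^ k) 1 with h | h | h
    · have := conj_lt (g := g) h
      simp only [mul_one, mul_inv_cancel] at this
      exact this.trans hw
    · rw [h]; simpa using hw
    · refine (conj_lt_pow_four hG h).trans ?_
      rw [← pow_mul]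
      exact hy _
  intro n
  refine ⟨hpow x (fun k => (hx k).1) n, ?_⟩
  have : (g * x * g⁻¹)⁻¹ = g * x⁻¹ * g⁻¹ := by group
  rw [this]
  exact hpow x⁻¹ (fun k => (hx k).2) n

theorem comm_mem_small (hG : AllConrad G) {w : G} {hw : 1 < w} {u : G} (h1 : u ≤ w)
    (h2 : u⁻¹ ≤ w) (g : G) : ⁅u, g⁆ ∈ small w hw := by
  have hn := small_normal hG (w := w) (hw := hw)
  have main : ∀ u : G, 1 < u → u ≤ w → ⁅u, g⁆ ∈ small w hw := by
    intro u hu huw
    have : ⁅g, u⁆ ∈ small w hw := by
      intro n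
      have := comm_pow_lt hG hu n (g := g)
      exact ⟨lt_of_lt_of_le this.1 huw, lt_of_lt_of_le this.2 huw⟩
    rw [← commutatorElement_inv]
    exact (small w hw).inv_mem this
  rcases lt_trichotomy u 1 with h | h | h
  · have h3 := main u⁻¹ (one_lt_inv'.mpr h) h2
    have e : ⁅u, g⁆ = u * ⁅u⁻¹, g⁆⁻¹ * u⁻¹ := by
      simp [commutatorElement_def, mul_assoc]
    rw [e]
    exact hn.conj_mem _ ((small w hw).inv_mem h3) u
  · rw [h, commutatorElement_one_left]
    exact (small w hw).one_mem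
  · exact main u h h1

theorem small_le_small {w y : G} {hw : 1 < w} {hy : 1 < y} (h : w ∉ small y hy) :
    small y hy ≤ small w hw := by
  intro g hg
  have key : ∀ g : G, (∀ n : ℕ, g ^ n < y) → ∀ n : ℕ, g ^ n < w := by
    intro g hg n
    by_contra hcon
    push Not at hcon
    apply h
    intro k
    constructor
    · calc w ^ k ≤ (g ^ n) ^ k := pow_le_pow_left' hcon k
        _ = g ^ (n * k) := (pow_mul _ _ _).symm
        _ < y := hg _
    · exact lt_of_le_of_lt (pow_le_one' (inv_le_one'.mpr hw.le) k) hy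
  intro n
  exact ⟨key g (fun n => (hg n).1) n, key g⁻¹ (fun n => (hg n).2) n⟩

/-- For a finite set `W` containing a nontrivial element there is a top level. -/
theorem exists_level (hG : AllConrad G) (W : Set G) (hW : W.Finite) (h : ∃ u ∈ W, u ≠ 1) :
    ∃ (w : G) (hw : 1 < w), (∀ u ∈ W, ∀ g, ⁅u, g⁆ ∈ small w hw) ∧ (∃ u ∈ W, u ∉ small w hw) ∧
      ∀ (y : G) (hy : 1 < y), (∃ u ∈ W, u ∉ small y hy) → small y hy ≤ small w hw := by
  obtain ⟨u₀, hu₀, hmax⟩ := Set.exists_max_image W (fun u => max u u⁻¹) hW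
    (by obtain ⟨u, hu, _⟩ := h; exact ⟨u, hu⟩)
  obtain ⟨u₁, hu₁, hne⟩ := h
  have hu₁' : 1 < max u₁ u₁⁻¹ := by
    rcases lt_or_gt_of_ne hne with h' | h'
    · exact lt_max_of_lt_right (one_lt_inv'.mpr h')
    · exact lt_max_of_lt_left h'
  have hw : 1 < max u₀ u₀⁻¹ := lt_of_lt_of_le hu₁' (hmax u₁ hu₁)
  refine ⟨max u₀ u₀⁻¹, hw, ?_, ?_, ?_⟩
  · intro u hu g
    have := hmax u hu
    exact comm_mem_small hG ((le_max_left _ _).trans this) ((le_max_right _ _).trans this) g
  · refine ⟨u₀, hu₀, fun hmem => ?_⟩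
    have h1 := hmem 1
    rw [pow_one, pow_one] at h1
    rcases max_choice u₀ u₀⁻¹ with h' | h'
    · rw [h'] at h1; exact lt_irrefl _ h1.1
    · rw [h'] at h1; exact lt_irrefl _ h1.2
  · rintro y hy ⟨u, hu, huy⟩
    apply small_le_small
    intro hmem
    apply huy
    have h1 := hmax u hu
    intro n
    have h2 := (hmem n).1
    constructor
    · exact lt_of_le_of_lt (pow_le_pow_left' ((le_max_left _ _).trans h1) n) h2
    · exact lt_of_le_of_lt (pow_le_pow_left' ((le_max_right _ _).trans h1) n) h2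

end Pool.Agent.ConradOrders
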