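import Mathlib
import Pool.Agent.ConradOrders.Bound
import Pool.Agent.ConradOrders.Central

/-!
Finitely generated soluble subgroups of orderable groups all of whose right orders are Conrad
are nilpotent.
-/

namespace Pool.Agent.ConradOrders

universe u v

open scoped commutatorElement

section Quot

variable {Γ : Type u} [Group Γ]

theorem coe_image_preimage {K : Subgroup Γ} {S : Set Γ} (hS : S ⊆ K) :
    K.subtype '' (Subtype.val ⁻¹' S : Set K) = S := by
  ext x
  constructor
  · rintro ⟨y, hy, rfl⟩; exact hy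
  · intro hx; exact ⟨⟨x, hS hx⟩, hx, rfl⟩

/-- Nilpotency of the quotient of a generated subgroup. -/
theorem ucs_quot_of_lnc (S : Set Γ) (N : Subgroup Γ) [hN : N.Normal] (n : ℕ)
    (h : ∀ z ∈ lnc S n, z ∈ N) :
    Subgroup.upperCentralSeries
      (Subgroup.closure S ⧸ N.subgroupOf (Subgroup.closure S)) n = ⊤ := by
  set K := Subgroup.closure S with hK
  let ρ := QuotientGroup.mk' (N.subgroupOf K)
  have hSK : S ⊆ K := Subgroup.subset_closure
  apply ucs_of_lnc (X := ρ '' (Subtype.val ⁻¹' S : Set K))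
  · rw [← MonoidHom.map_closure]
    have h1 : Subgroup.closure (Subtype.val ⁻¹' S : Set K) = ⊤ :=
      Subgroup.closure_closure_coe_preimage
    rw [h1]
    exact Subgroup.map_top_of_surjective _ (QuotientGroup.mk'_surjective _)
  · intro z hz
    obtain ⟨u, hu, rfl⟩ := mem_lnc_map ρ _ n z hz
    have h1 := map_mem_lnc K.subtype _ n u hu
    rw [coe_image_preimage hSK] at h1
    exact (QuotientGroup.eq_one_iff u).mpr (h _ h1)

theorem lnc_mem_of_ucs_quot (K : Subgroup Γ) (N : Subgroup Γ) [hN : N.Normal] (n : ℕ)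
    (h : Subgroup.upperCentralSeries (K ⧸ N.subgroupOf K) n = ⊤) {S : Set Γ} (hS : S ⊆ K) :
    ∀ z ∈ lnc S n, z ∈ N := by
  intro z hz
  rw [← Subgroup.lowerCentralSeries_eq_bot_iff_upperCentralSeries_eq_top] at h
  rw [← coe_image_preimage hS] at hz
  obtain ⟨u, hu, rfl⟩ := mem_lnc_map K.subtype _ n z hz
  have h1 := lnc_mem_lcs _ n u hu
  have h2 : QuotientGroup.mk' (N.subgroupOf K) u ∈
      ((⊤ : Subgroup K).lowerCentralSeries n).map (QuotientGroup.mk' (N.subgroupOf K)) :=
    ⟨u, h1, rfl⟩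
  rw [Subgroup.map_lowerCentralSeries] at h2
  have h3 : QuotientGroup.mk' (N.subgroupOf K) u ∈
      (⊤ : Subgroup (K ⧸ N.subgroupOf K)).lowerCentralSeries n :=
    Subgroup.lowerCentralSeries_mono n le_top h2
  rw [h, Subgroup.mem_bot] at h3
  exact (QuotientGroup.eq_one_iff u).mp h3

theorem exists_finset_lnc (n : ℕ) : ∀ z ∈ lnc (Set.univ : Set Γ) n,
    ∃ E : Finset Γ, z ∈ lnc (E : Set Γ) n := by
  classical
  induction n with
  | zero =>
    intro z _
    exact ⟨{z}, by simp [lnc]⟩
  | succ n ih =>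
    rintro z ⟨u, hu, x, _, rfl⟩
    obtain ⟨E, hE⟩ := ih u hu
    refine ⟨insert x E, u, ?_, x, by simp, rfl⟩
    exact lnc_mono (by simp) n hE

end Quot

section Level

variable {Γ : Type u} [Group Γ] [LinearOrder Γ] [MulLeftMono Γ] [MulRightMono Γ]

/-- If all torsion-free nilpotent quotients have class at most `c`, the subgroup generated by
`X` is nilpotent of class at most `c`. -/
theorem lnc_eq_one (hC : AllConrad Γ) {X : Set Γ} (hX : X.Finite)
    (hloc : ∀ E : Finset Γ, ∃ K : Subgroup Γ, K.FG ∧ TermIn K X ∧ ∀ e ∈ E, e ∈ K) (c : ℕ)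
    (hc : ∀ (Q : Type u) (_ : Group Q) (φ : Γ →* Q), Function.Surjective φ →
      Group.IsNilpotent Q → TF Q → Subgroup.upperCentralSeries Q c = ⊤) :
    ∀ z ∈ lnc X c, z = 1 := by
  by_contra hcon
  push Not at hcon
  obtain ⟨y, hy, hy1, ⟨u₀, hu₀, hu₀'⟩, _⟩ :=
    exists_level hC (lnc X c) (lnc_finite hX c) hcon
  let N : Subgroup Γ := small y hy
  have hNn : N.Normal := small_normal hC
  -- local nilpotency modulo `N`
  have hK : ∀ K : Subgroup Γ, K.FG → TermIn K X →
      Subgroup.upperCentralSeries (K ⧸ N.subgroupOf K) (c + 1) = ⊤ := by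
    intro K hKfg hKT
    obtain ⟨S, hS⟩ := hKfg
    have hW : ∀ w ∈ lnc (S : Set Γ) (c + 1), w ∈ N := by
      by_contra hcon2
      push Not at hcon2
      obtain ⟨w₁, hw₁, hw₁'⟩ := hcon2
      obtain ⟨w, hw, ha, hb, hc'⟩ := exists_level hC (lnc (S : Set Γ) (c + 1))
        (lnc_finite S.finite_toSet (c + 1))
        ⟨w₁, hw₁, fun h => hw₁' (by rw [h]; exact N.one_mem)⟩
      have hNw : N ≤ small w hw := hc' y hy ⟨w₁, hw₁, hw₁'⟩
      have hwn : (small w hw).Normal := small_normal hC
      -- the quotient `K / small w`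
      have hnil : Subgroup.upperCentralSeries (K ⧸ (small w hw).subgroupOf K) (c + 2) = ⊤ := by
        subst hS
        apply ucs_quot_of_lnc
        rintro z ⟨u, hu, x, _, rfl⟩
        exact ha u hu x
      have hTF : TF (K ⧸ (small w hw).subgroupOf K) := by
        intro x n hn hx
        induction x using QuotientGroup.induction_on with
        | H x =>
          rw [← QuotientGroup.mk_pow, QuotientGroup.eq_one_iff, Subgroup.mem_subgroupOf] at hx
          rw [QuotientGroup.eq_one_iff, Subgroup.mem_subgroupOf]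
          exact small_isolated hn (by simpa using hx)
      have hT := hKT.term.map (QuotientGroup.mk' ((small w hw).subgroupOf K))
        (QuotientGroup.mk'_surjective _)
      have hcl : Subgroup.upperCentralSeries (K ⧸ (small w hw).subgroupOf K) (c + 1) = ⊤ := by
        apply ucs_of_term hT hTF ⟨⟨_, hnil⟩⟩
        intro z hz
        obtain ⟨u, hu, rfl⟩ := mem_lnc_map _ _ (c + 1) z hz
        have h1 := map_mem_lnc K.subtype _ (c + 1) u hu
        rw [coe_image_preimage hKT.1] at h1
        obtain ⟨u', hu', x, _, he⟩ := h1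
        apply (QuotientGroup.eq_one_iff u).mpr
        rw [Subgroup.mem_subgroupOf]
        apply hNw
        have he' : (u : Γ) = ⁅u', x⁆ := he
        rw [he']
        exact hy1 u' hu' x
      obtain ⟨u, hu, hu'⟩ := hb
      apply hu'
      exact lnc_mem_of_ucs_quot K _ (c + 1) hcl
        (by rw [← hS]; exact Subgroup.subset_closure) u hu
    subst hS
    exact ucs_quot_of_lnc _ N (c + 1) hW
  have hnilN : Subgroup.upperCentralSeries (Γ ⧸ N) (c + 1) = ⊤ := by
    apply ucs_of_lnc (X := QuotientGroup.mk' N '' Set.univ)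
    · rw [Set.image_univ, Set.range_eq_univ.mpr (QuotientGroup.mk'_surjective N)]
      exact Subgroup.closure_univ
    · intro z hz
      obtain ⟨u, hu, rfl⟩ := mem_lnc_map _ _ (c + 1) z hz
      obtain ⟨E, hE⟩ := exists_finset_lnc (c + 1) u hu
      obtain ⟨K, hKfg, hKT, hEK⟩ := hloc E
      exact (QuotientGroup.eq_one_iff u).mpr
        (lnc_mem_of_ucs_quot K N (c + 1) (hK K hKfg hKT) (S := (E : Set Γ)) hEK u hE)
  have hTFN : TF (Γ ⧸ N) := by
    intro x n hn hx
    induction x using QuotientGroup.induction_on with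
    | H x =>
      rw [← QuotientGroup.mk_pow, QuotientGroup.eq_one_iff] at hx
      rw [QuotientGroup.eq_one_iff]
      exact small_isolated hn hx
  have h1 := hc (Γ ⧸ N) _ (QuotientGroup.mk' N) (QuotientGroup.mk'_surjective N)
    ⟨⟨_, hnilN⟩⟩ hTFN
  rw [← Subgroup.lowerCentralSeries_eq_bot_iff_upperCentralSeries_eq_top] at h1
  apply hu₀'
  have h2 := lnc_mem_lcs _ c _ (map_mem_lnc (QuotientGroup.mk' N) X c u₀ hu₀)
  rw [h1, Subgroup.mem_bot] at h2
  exact (QuotientGroup.eq_one_iff u₀).mp h2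

end Level

end Pool.Agent.ConradOrders
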