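import Mathlib
import Pool.Agent.ConradOrders.Final

/-!
The main theorem on soluble subgroups.
-/

namespace Pool.Agent.ConradOrders

universe u v

open scoped commutatorElement

section HullLocal

variable {G : Type u} [Group G]

theorem hull_local (X : Set G) (hX : X.Finite) (E : Finset (hull X hX)) :
    ∃ K : Subgroup (hull X hX), K.FG ∧ TermIn K (Subtype.val ⁻¹' X) ∧ ∀ e ∈ E, e ∈ K := by
  classical
  obtain ⟨K, hK, hKT, hKE⟩ := finset_hull X hX (E.image Subtype.val) (by
    intro e he
    obtain ⟨y, _, rfl⟩ := Finset.mem_image.mp he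
    exact y.2)
  have hKH : K ≤ hull X hX := fun x hx => ⟨K, hK, hKT, hx⟩
  refine ⟨K.subgroupOf (hull X hX), ?_, ⟨?_, ?_⟩, ?_⟩
  · rw [← Group.fg_iff_subgroup_fg] at hK ⊢
    exact Group.fg_of_surjective (f := (Subgroup.subgroupOfEquivOfLe hKH).symm.toMonoidHom)
      (Subgroup.subgroupOfEquivOfLe hKH).symm.surjective
  · intro x hx
    exact hKT.1 hx
  · intro N h1 h2 h3
    have h4 : K ≤ N.map (hull X hX).subtype := by
      apply hKT.2
      · intro a ha b hb
        refine ⟨⁅(⟨a, hKH ha⟩ : hull X hX), ⟨b, hKH hb⟩⁆, h1 _ ha _ hb, ?_⟩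
        simp [commutatorElement_def]
      · rintro x hx n hn ⟨y, hy, hy'⟩
        refine ⟨⟨x, hKH hx⟩, ?_, rfl⟩
        apply h2 _ hx n hn
        have : (⟨x, hKH hx⟩ : hull X hX) ^ n = y := Subtype.ext (by simpa using hy'.symm)
        rw [this]
        exact hy
      · intro x hx
        exact ⟨⟨x, subset_hull X hX hx⟩, h3 hx, rfl⟩
    intro x hx
    obtain ⟨y, hy, hy'⟩ := h4 hx
    have : y = x := Subtype.ext hy'
    rw [← this]
    exact hy
  · intro e he
    exact hKE _ (Finset.mem_image.mpr ⟨e, he, rfl⟩)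

theorem hull_term (X : Set G) (hX : X.Finite) : Term (hull X hX) (Subtype.val ⁻¹' X) := by
  intro N h1 h2 h3
  rw [eq_top_iff]
  intro x _
  obtain ⟨K, _, hKT, hKE⟩ := hull_local X hX {x}
  exact hKT.2 N (fun a _ b _ => h1 a b) (fun x _ => h2 x) h3 (hKE x (by simp))

theorem Orderable.subgroup (h : Orderable G) (H : Subgroup G) : Orderable H := by
  obtain ⟨lt, h1, h2⟩ := h
  refine ⟨fun a b => lt a b, ⟨fun a => h1.irrefl a, fun a b c => h1.trans a b c, ?_,
    fun f g k => h1.mul_right f g k⟩, fun f g k => h2 f g k⟩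
  intro a b
  rcases h1.total (a : G) b with h | h | h
  · left; exact h
  · right; left; exact Subtype.ext h
  · right; right; exact h

theorem Orderable.exists_linearOrder (h : Orderable G) :
    ∃ _ : LinearOrder G, MulLeftMono G ∧ MulRightMono G := by
  classical
  obtain ⟨lt, h1, h2⟩ := h
  let L : LinearOrder G :=
    { le := fun a b => a = b ∨ lt a b
      lt := lt
      le_refl := fun a => Or.inl rfl
      le_trans := by
        rintro a b c (rfl | hab) (rfl | hbc)
        · left; rfl
        · right; exact hbc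
        · right; exact hab
        · right; exact h1.trans _ _ _ hab hbc
      lt_iff_le_not_ge := by
        intro a b
        constructor
        · intro hab
          refine ⟨Or.inr hab, ?_⟩
          rintro (rfl | hba)
          · exact h1.irrefl _ hab
          · exact h1.irrefl _ (h1.trans _ _ _ hab hba)
        · rintro ⟨rfl | hab, hn⟩
          · exact absurd (Or.inl rfl) hn
          · exact hab
      le_antisymm := by
        rintro a b (rfl | hab) (hba | hba)
        · rfl
        · rfl
        · exact hba.symm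
        · exact absurd (h1.trans _ _ _ hab hba) (h1.irrefl _)
      le_total := by
        intro a b
        rcases h1.total a b with h | h | h
        · left; right; exact h
        · left; left; exact h
        · right; right; exact h
      toDecidableLE := Classical.decRel _ }
  refine ⟨L, ⟨?_⟩, ⟨?_⟩⟩
  · rintro a b c (rfl | h)
    · exact Or.inl rfl
    · exact Or.inr (h2 _ _ a h)
  · rintro a b c (rfl | h)
    · exact Or.inl rfl
    · exact Or.inr (h1.mul_right _ _ a h)

end HullLocal

section Solvable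

variable {G : Type u} [Group G]

theorem ds_eq_map (X : Set G) (n : ℕ) :
    ds X n = (derivedSeries (Subgroup.closure X) n).map (Subgroup.closure X).subtype := by
  induction n with
  | zero =>
    rw [derivedSeries_zero, ← MonoidHom.range_eq_map, Subgroup.range_subtype]
    rfl
  | succ n ih =>
    rw [derivedSeries_succ, Subgroup.map_commutator, ← ih]
    rfl

/-- The key statement: finitely generated soluble subgroups are nilpotent. -/
theorem closure_nilpotent (hO : Orderable G) (hC : AllConrad G) (X : Set G) (hX : X.Finite)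
    (hs : Group.IsSolvable (Subgroup.closure X)) : Group.IsNilpotent (Subgroup.closure X) := by
  classical
  obtain ⟨L, hL1, hL2⟩ := (hO.subgroup (hull X hX)).exists_linearOrder
  have hCΓ := allConrad_hull hC X hX
  let X' : Set (hull X hX) := Subtype.val ⁻¹' X
  have hX' : X'.Finite := hX.preimage Subtype.val_injective.injOn
  have himg : (hull X hX).subtype '' X' = X := coe_image_preimage (subset_hull X hX)
  -- solubility of the closure of `X'`
  have hs' : Group.IsSolvable (Subgroup.closure X') := by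
    have hmem : ∀ x : Subgroup.closure X', (((x : hull X hX)) : G) ∈ Subgroup.closure X := by
      intro x
      have h1 : (hull X hX).subtype (x : hull X hX) ∈
          (Subgroup.closure X').map (hull X hX).subtype := ⟨x, x.2, rfl⟩
      rw [MonoidHom.map_closure, himg] at h1
      exact h1
    let f : Subgroup.closure X' →* Subgroup.closure X :=
      ((hull X hX).subtype.comp (Subgroup.closure X').subtype).codRestrict _ hmem
    have hf : Function.Injective f := by
      intro a b hab
      have h1 : (((a : hull X hX)) : G) = ((b : hull X hX) : G) :=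
        congrArg (Subtype.val : Subgroup.closure X → G) hab
      exact Subtype.ext (Subtype.ext h1)
    exact Group.isSolvable_of_isSolvable_injective hf
  obtain ⟨d, hd⟩ := hs'.solvable
  have hds : ds X' d = ⊥ := by rw [ds_eq_map, hd, Subgroup.map_bot]
  obtain ⟨c, hc⟩ := exists_bound hCΓ (isCone_pos (G := hull X hX)) hX' (hull_term X hX) d
  have h1 := lnc_eq_one hCΓ hX' (hull_local X hX) c (by
    intro Q _ φ hφ hnil htf
    apply hc Q _ φ
    exact ⟨hφ, hnil, htf, by rw [hds, Subgroup.map_bot]⟩)
  refine ⟨⟨c, ?_⟩⟩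
  apply ucs_of_lnc (X := (Subtype.val ⁻¹' X : Set (Subgroup.closure X)))
    Subgroup.closure_closure_coe_preimage
  intro z hz
  have h2 := map_mem_lnc (Subgroup.closure X).subtype _ c z hz
  rw [coe_image_preimage Subgroup.subset_closure] at h2
  have h3 : (z : G) ∈ lnc ((hull X hX).subtype '' X') c := by
    rw [himg]; exact h2
  obtain ⟨u, hu, hu'⟩ := mem_lnc_map (hull X hX).subtype X' c _ h3
  rw [h1 u hu, map_one] at hu'
  exact Subtype.ext hu'.symm

end Solvable

section Thue

variable {G : Type u} [Group G]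

/-- The Thue-Morse words in two elements. -/
def mt (x y : G) : ℕ → G × G
  | 0 => (x, y)
  | n + 1 => ((mt x y n).1 * (mt x y n).2, (mt x y n).2 * (mt x y n).1)

theorem mt_map {H : Type v} [Group H] (f : G →* H) (x y : G) (n : ℕ) :
    mt (f x) (f y) n = (f (mt x y n).1, f (mt x y n).2) := by
  induction n with
  | zero => rfl
  | succ n ih => simp [mt, ih]

theorem mt_mem_lcs (x y : G) (n : ℕ) :
    (mt x y n).1 * ((mt x y n).2)⁻¹ ∈ (⊤ : Subgroup G).lowerCentralSeries n := by
  induction n with
  | zero => trivial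
  | succ n ih =>
    have e : (mt x y (n + 1)).1 * ((mt x y (n + 1)).2)⁻¹ =
        ⁅(mt x y n).1 * ((mt x y n).2)⁻¹, (mt x y n).2⁆ := by
      simp [mt, commutatorElement_def, mul_assoc]
    rw [e, Subgroup.lowerCentralSeries_succ]
    exact Subgroup.commutator_mem_commutator ih trivial

theorem mt_eq_of_nilpotent (h : Group.IsNilpotent G) (x y : G) :
    ∃ n, (mt x y n).1 = (mt x y n).2 := by
  obtain ⟨c, hc⟩ := h.nilpotent'
  rw [← Subgroup.lowerCentralSeries_eq_bot_iff_upperCentralSeries_eq_top] at hc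
  refine ⟨c, ?_⟩
  have h1 := mt_mem_lcs x y c
  rw [hc, Subgroup.mem_bot] at h1
  exact mul_inv_eq_one.mp h1

/-- The ping-pong argument. -/
theorem mt_ne {lt : G → G → Prop} (hlt : IsRightOrder lt) {f g : G} (hf : lt 1 f)
    (hfg : lt f g) (hm : ∀ m : ℕ, 0 < m → ¬ lt g (f * g ^ m * f⁻¹)) (n : ℕ) :
    (mt g (g * f⁻¹) n).1 ≠ (mt g (g * f⁻¹) n).2 := by
  have hg : lt 1 g := hlt.trans _ _ _ hf hfg
  -- powers of `g` are below `g * f`
  have h1 : ∀ m : ℕ, lt (g ^ m) (g ^ (m + 1)) := by
    intro m
    have := hlt.mul_right _ _ (g ^ m) hg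
    rwa [one_mul, ← pow_succ'] at this
  have h2 : ∀ m : ℕ, 0 < m → lt (g ^ m * f⁻¹) g := by
    intro m hm0
    have e1 : lt (g ^ m) (f * g ^ m) := by
      have := hlt.mul_right _ _ (g ^ m) hf
      rwa [one_mul] at this
    have e2 : lt (g ^ m * f⁻¹) (f * g ^ m * f⁻¹) := hlt.mul_right _ _ _ e1
    rcases hlt.total g (f * g ^ m * f⁻¹) with h | h | h
    · exact absurd h (hm m hm0)
    · rw [← h] at e2; exact e2
    · exact hlt.trans _ _ _ e2 h
  let le : G → G → Prop := fun a b => a = b ∨ lt a b
  have le_lt : ∀ a b c, le a b → lt b c → lt a c := by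
    rintro a b c (rfl | h) h'
    · exact h'
    · exact hlt.trans _ _ _ h h'
  have lt_le : ∀ a b c, lt a b → le b c → lt a c := by
    rintro a b c h (rfl | h')
    · exact h
    · exact hlt.trans _ _ _ h h'
  have le_le : ∀ a b c, le a b → le b c → le a c := by
    rintro a b c h (rfl | h')
    · exact h
    · exact Or.inr (le_lt _ _ _ h h')
  have le_mul : ∀ a b c, le a b → le (a * c) (b * c) := by
    rintro a b c (rfl | h)
    · exact Or.inl rfl
    · exact Or.inr (hlt.mul_right _ _ _ h)
  let I : Set G := {z | le 1 z ∧ ∃ m : ℕ, le z (g ^ m)}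
  have hx : ∀ z ∈ I, z * g ∈ I ∧ le g (z * g) := by
    rintro z ⟨hz1, m, hz2⟩
    have e1 : le g (z * g) := by
      have := le_mul _ _ g hz1
      rwa [one_mul] at this
    refine ⟨⟨Or.inr (lt_le _ _ _ hg e1), m + 1, ?_⟩, e1⟩
    rw [pow_succ]
    exact le_mul _ _ g hz2
  have hy : ∀ z ∈ I, z * (g * f⁻¹) ∈ I ∧ lt (z * (g * f⁻¹)) g := by
    intro z hz
    obtain ⟨⟨_, m, hz2⟩, hz3⟩ := hx z hz
    have e1 : lt (z * (g * f⁻¹)) g := by
      rw [← mul_assoc]
      have e2 := le_mul _ _ f⁻¹ hz2
      rcases Nat.eq_zero_or_pos m with rfl | hm0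
      · rw [pow_zero] at hz2
        have := lt_le _ _ _ (lt_le _ _ _ hg hz3) hz2
        exact absurd this (hlt.irrefl _)
      · exact le_lt _ _ _ e2 (h2 m hm0)
    refine ⟨⟨?_, 1, ?_⟩, e1⟩
    · right
      have e2 : lt 1 (g * f⁻¹) := by
        have := hlt.mul_right _ _ f⁻¹ hfg
        rwa [mul_inv_cancel] at this
      have e3 : le (g * f⁻¹) (z * g * f⁻¹) := le_mul _ _ f⁻¹ hz3
      rw [← mul_assoc]
      exact lt_le _ _ _ e2 e3
    · rw [pow_one]
      exact Or.inr e1
  have key : ∀ n : ℕ,
      (∀ z ∈ I, z * (mt g (g * f⁻¹) n).1 ∈ I ∧ le g (z * (mt g (g * f⁻¹) n).1) ∧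
        z * (mt g (g * f⁻¹) n).2 ∈ I ∧ lt (z * (mt g (g * f⁻¹) n).2) g) ∨
      (∀ z ∈ I, z * (mt g (g * f⁻¹) n).2 ∈ I ∧ le g (z * (mt g (g * f⁻¹) n).2) ∧
        z * (mt g (g * f⁻¹) n).1 ∈ I ∧ lt (z * (mt g (g * f⁻¹) n).1) g) := by
    intro n
    induction n with
    | zero =>
      left
      intro z hz
      exact ⟨(hx z hz).1, (hx z hz).2, (hy z hz).1, (hy z hz).2⟩
    | succ n ih =>
      rcases ih with ih | ih
      · right
        intro z hz
        obtain ⟨a1, _, a3, _⟩ := ih z hz
        obtain ⟨b1, b2, _, _⟩ := ih _ a3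
        obtain ⟨_, _, c3, c4⟩ := ih _ a1
        simp only [mt, ← mul_assoc]
        exact ⟨b1, b2, c3, c4⟩
      · left
        intro z hz
        obtain ⟨a1, _, a3, _⟩ := ih z hz
        obtain ⟨b1, b2, _, _⟩ := ih _ a3
        obtain ⟨_, _, c3, c4⟩ := ih _ a1
        simp only [mt, ← mul_assoc]
        exact ⟨b1, b2, c3, c4⟩
  intro heq
  have h1I : (1 : G) ∈ I := ⟨Or.inl rfl, 0, by rw [pow_zero]; exact Or.inl rfl⟩
  rcases key n with h | h
  · obtain ⟨_, a2, _, a4⟩ := h 1 h1I
    rw [heq] at a2
    exact hlt.irrefl _ (le_lt _ _ _ a2 a4)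
  · obtain ⟨_, a2, _, a4⟩ := h 1 h1I
    rw [heq] at a4
    exact hlt.irrefl _ (le_lt _ _ _ a2 a4)

/-- If all subgroups generated by two elements are nilpotent, all right orders are Conrad. -/
theorem allConrad_of_nilpotent
    (h : ∀ f g : G, Group.IsNilpotent (Subgroup.closure {f, g})) : AllConrad G := by
  intro lt hlt f g hf hfg
  by_contra hcon
  push Not at hcon
  have hfm : f ∈ Subgroup.closure {f, g} := Subgroup.subset_closure (by simp)
  have hgm : g ∈ Subgroup.closure {f, g} := Subgroup.subset_closure (by simp)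
  obtain ⟨n, hn⟩ := mt_eq_of_nilpotent (h f g)
    (⟨g, hgm⟩ : Subgroup.closure {f, g})
    (⟨g * f⁻¹, Subgroup.mul_mem _ hgm (Subgroup.inv_mem _ hfm)⟩ : Subgroup.closure {f, g})
  apply mt_ne hlt hf hfg hcon n
  have h1 := mt_map (Subgroup.closure {f, g}).subtype (⟨g, hgm⟩ : Subgroup.closure {f, g})
    (⟨g * f⁻¹, Subgroup.mul_mem _ hgm (Subgroup.inv_mem _ hfm)⟩ : Subgroup.closure {f, g}) n
  simp only [Subgroup.coe_subtype] at h1
  rw [h1, hn]

end Thue

/-- Finitely generated soluble subgroups of orderable groups whose right orders are all Conrad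
are nilpotent, and locally soluble subgroups have only Conrad right orders. -/
theorem main {G : Type u} [Group G] (hO : Orderable G) (hC : AllConrad G) (H : Subgroup G)
    (hs : ∀ K : Subgroup G, K ≤ H → K.FG → Group.IsSolvable K) :
    (∀ K : Subgroup G, K ≤ H → K.FG → Group.IsNilpotent K) ∧ AllConrad H := by
  have h1 : ∀ K : Subgroup G, K ≤ H → K.FG → Group.IsNilpotent K := by
    intro K hKH hK
    have hsK := hs K hKH hK
    obtain ⟨S, hS⟩ := hK
    subst hS
    exact closure_nilpotent hO hC _ S.finite_toSet hsK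
  refine ⟨h1, allConrad_of_nilpotent ?_⟩
  intro f g
  have h2 : Group.IsNilpotent (Subgroup.closure {(f : G), (g : G)}) := by
    apply h1
    · rw [Subgroup.closure_le]
      rintro x (rfl | rfl)
      · exact f.2
      · exact g.2
    · exact (Subgroup.fg_iff _).mpr ⟨_, rfl, by simp⟩
  have hmem : ∀ x : Subgroup.closure {f, g}, (((x : H)) : G) ∈
      Subgroup.closure {(f : G), (g : G)} := by
    intro x
    have h3 : H.subtype (x : H) ∈ (Subgroup.closure {f, g}).map H.subtype := ⟨x, x.2, rfl⟩
    rw [MonoidHom.map_closure, Set.image_pair] at h3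
    exact h3
  let φ : Subgroup.closure {f, g} →* Subgroup.closure {(f : G), (g : G)} :=
    (H.subtype.comp (Subgroup.closure {f, g}).subtype).codRestrict _ hmem
  have hφ : Function.Injective φ := by
    intro a b hab
    have h3 : (((a : H)) : G) = ((b : H) : G) :=
      congrArg (Subtype.val : Subgroup.closure {(f : G), (g : G)} → G) hab
    exact Subtype.ext (Subtype.ext h3)
  exact Subgroup.isNilpotent_of_ker_le_center φ (by
    rw [(MonoidHom.ker_eq_bot_iff φ).mpr hφ]; exact bot_le)

end Pool.Agent.ConradOrders
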